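import Pool.Agent.H605Z.Pol.Gen

set_option autoImplicit false

/-!
# If there is no large rectangle of the first colour, many rows have large finite intersections
-/

namespace Pool.Agent.H605Z.Pol

open Cardinal Set Pool.Agent.Helper669.Forcing Pool.Agent.Helper669.K Pool.Agent.Helper980.G

variable {P : Type} [Preorder P] {K S : Type}

/-- the columns forced by `q` to have the second colour in all rows of `a` -/
def Fc (c : K → S → Set P) (q : P) (a : Finset S) : Set K :=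
  {x | ∀ β ∈ a, q ∈ meets (c x β)}

theorem Fc_mono {c : K → S → Set P} {q r : P} (h : r ≤ q) (a : Finset S) : Fc c q a ⊆ Fc c r a :=
  fun _ hx β hβ => down_meets _ _ (hx β hβ) _ h

def Big (c : K → S → Set P) (q : P) (a : Finset S) : Prop :=
  ∀ q' ≤ q, ∀ θ < #K, ∃ r ≤ q', θ ≤ #(Fc c r a)

/-- the rectangle of the first colour -/
def Rect0 (c : K → S → Set P) : Set P :=
  fex fun A : K → Set P => fex fun B : S → Set P => fand (AtLeast K A) (fand (AtLeast S B)
    (fall fun x => fall fun y =>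
      fimp (fand (meets (A x)) (meets (B y))) (fnot (meets (c x y)))))

theorem big_step [DecidableEq S] {lv : K → ℕ} {k : ℕ → Cardinal.{0}} (hK : Sing K lv k)
    (hP : #P < #K) (hS : #S = Order.succ #K) {c : K → S → Set P} {q : P}
    (hq : q ∈ fnot (Rect0 c)) {a : Finset S} (ha : Big c q a) :
    #{β | ¬ Big c q (insert β a)} ≤ #K := by
  classical
  have hK0 : ℵ₀ ≤ #K := (hK.inf 0).trans (hK.lt 0).le
  by_contra hc
  push Not at hc
  have h1 : ∀ β, ∃ z : P × ℕ, ¬ Big c q (insert β a) →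
      z.1 ≤ q ∧ ∀ r ≤ z.1, #(Fc c r (insert β a)) ≤ k z.2 := by
    intro β
    by_cases hb : Big c q (insert β a)
    · exact ⟨(q, 0), fun h => absurd hb h⟩
    · have hb' := hb
      unfold Big at hb'
      push Not at hb'
      obtain ⟨q', hq', θ, hθ, h⟩ := hb'
      obtain ⟨n, hn⟩ := hK.cof θ hθ
      exact ⟨(q', n), fun _ => ⟨hq', fun r hr => (h r hr).le.trans hn⟩⟩
  choose z hz using h1
  obtain ⟨⟨p', n⟩, hY'⟩ := pigeon hK0 _ hc z (by
    rw [mk_prod, lift_id, lift_id, mk_nat]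
    exact mul_le_of_le hK0 hP.le hK0)
  have hp' : p' ≤ q := by
    obtain ⟨β, hβ⟩ : {y | y ∈ {β | ¬ Big c q (insert β a)} ∧ z y = (p', n)}.Nonempty :=
      Set.nonempty_coe_sort.1 (mk_ne_zero_iff.1 (zero_le.trans_lt hY').ne')
    have := (hz β hβ.1).1
    rwa [hβ.2] at this
  let ν : Cardinal.{0} := max (#P) (k n)
  have hν : ν < #K := max_lt hP (hK.lt n)
  have hν0 : ℵ₀ ≤ ν := (hK.inf n).trans (le_max_right _ _)
  let Z : S → Set K := fun β => ⋃ r : {r // r ≤ p'}, Fc c r.1 (insert β a)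
  have hZ : ∀ β, ¬ Big c q (insert β a) → z β = (p', n) → #(Z β) ≤ ν := by
    intro β h1 h2
    refine union_le hν0 ((mk_subtype_le _).trans (le_max_left _ _)) _ fun r => ?_
    have := (hz β h1).2 r.1 (by rw [h2]; exact r.2)
    rw [h2] at this
    exact this.trans (le_max_right _ _)
  let I : Type := (Order.succ ν).out
  have hI : #I = Order.succ ν := mk_out _
  let θ : ℕ → Cardinal.{0} := fun m => max (Order.succ ν) (k m)
  have hθ : ∀ m, θ m < #K := fun m => max_lt (hK.lim _ hν) (hK.lt m)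
  have hθ0 : ∀ m, ℵ₀ ≤ θ m := fun m => (hK.inf m).trans (le_max_right _ _)
  have h2 : ∀ (m : ℕ) (r : {r // r ≤ p'}), ∃ r' ≤ r.1, θ m < #(Fc c r' a) := by
    intro m r
    obtain ⟨r', hr', h⟩ := ha r.1 (r.2.trans hp') _ (hK.lim _ (hθ m))
    exact ⟨r', hr', (Order.lt_succ _).trans_le h⟩
  choose ρ hρ1 hρ2 using h2
  let J : Type := Σ m : ℕ, I × {r // r ≤ p'} × (k m).out
  obtain ⟨g, hg1, hg2⟩ := sdr (J := J) (fun j => j.1) (fun j => Fc c (ρ j.1 j.2.2.1) a) θ
    (by
      intro m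
      have h3 : {j : J | j.1 ≤ m} ⊆ ⋃ i : Iic m, range (fun w => (⟨i.1, w⟩ : J)) := by
        rintro ⟨i, w⟩ hi
        exact mem_iUnion.2 ⟨⟨i, hi⟩, w, rfl⟩
      refine (mk_le_mk_of_subset h3).trans (union_le (hθ0 m) ?_ _ fun i => ?_)
      · exact (mk_le_aleph0).trans (hθ0 m)
      · refine mk_range_le.trans ?_
        rw [mk_prod, lift_id, lift_id, mk_prod, lift_id, lift_id, hI, mk_out]
        refine mul_le_of_le (hθ0 m) (le_max_left _ _) (mul_le_of_le (hθ0 m) ?_ ?_)
        · exact (mk_subtype_le _).trans ((le_max_left _ _).trans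
            ((Order.le_succ ν).trans (le_max_left _ _)))
        · exact (hK.mono i.2).trans (le_max_right _ _))
    (fun j => hρ2 j.1 j.2.2.1)
  let Ki : I → Set K := fun i => {x | ∃ j : J, j.2.1 = i ∧ g j = x}
  have h3 : ∀ β, ∃ i : I, ¬ Big c q (insert β a) → z β = (p', n) → Disjoint (Ki i) (Z β) := by
    intro β
    by_contra hcon
    push Not at hcon
    have h4 : ∀ i, ∃ x : Z β, x.1 ∈ Ki i := by
      intro i
      obtain ⟨x, hx1, hx2⟩ := not_disjoint_iff.1 (hcon i).2.2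
      exact ⟨⟨x, hx2⟩, hx1⟩
    choose x hx using h4
    have hinj : Function.Injective x := by
      intro i i' hii
      obtain ⟨j, hj1, hj2⟩ := hx i
      obtain ⟨j', hj1', hj2'⟩ := hx i'
      have : j = j' := hg1 (by rw [hj2, hj2', hii])
      rw [← hj1, ← hj1', this]
    have h5 := mk_le_of_injective hinj
    have hI0 : Nonempty I := mk_ne_zero_iff.1 (by rw [hI]; exact (Order.bot_lt_succ _).ne')
    obtain ⟨i⟩ := hI0
    rw [hI] at h5
    exact absurd (h5.trans (hZ β (hcon i).1 (hcon i).2.1)) (not_le.2 (Order.lt_succ ν))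
  choose ι hι using h3
  obtain ⟨i, hY''⟩ := pigeon hK0 _ hY' ι (by rw [hI]; exact (hK.lim _ hν).le)
  let A : K → Set P := fun x => {r | r ≤ p' ∧ x ∈ Ki i ∧ x ∈ Fc c r a}
  have hAd : ∀ x, Down (A x) := fun x r hr s hs => ⟨hs.trans hr.1, hr.2.1, Fc_mono hs a hr.2.2⟩
  refine hq p' hp' (mem_fex_of_mem A (down_fex _) (mem_fex_of_mem
    (fun y => fground (y ∈ {y | y ∈ {y | y ∈ {β | ¬ Big c q (insert β a)} ∧ z y = (p', n)} ∧
      ι y = i}))
    (down_fand (down_fex _) (down_fand (down_fex _)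
      (down_fall fun _ => down_fall fun _ => down_fimp _ _))) ⟨?_, ?_, ?_⟩))
  · refine atl hK hP A fun r hr θ' hθ' => ?_
    obtain ⟨m, hm⟩ := hK.cof θ' hθ'
    refine ⟨ρ m ⟨r, hr⟩, hρ1 m ⟨r, hr⟩, hm.trans ?_⟩
    have h4 : #((k m).out) ≤ #{x | ρ m ⟨r, hr⟩ ∈ meets (A x)} := by
      refine mk_le_of_injective (f := fun w => ⟨g ⟨m, i, ⟨r, hr⟩, w⟩, meets_of_mem
        ⟨(hρ1 m ⟨r, hr⟩).trans hr, ⟨_, rfl, rfl⟩, hg2 ⟨m, i, ⟨r, hr⟩, w⟩⟩⟩) ?_
      intro w w' hw
      have := hg1 (congrArg Subtype.val hw)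
      simpa [J] using this
    rwa [mk_out] at h4
  · refine atLeast_ground _ ?_ _
    rw [hS]
    exact Order.succ_le_of_lt hY''
  · intro x y
    refine mem_fimp.2 fun u _ h => ⟨u, le_rfl, fun w hw hw' => ?_⟩
    obtain ⟨_, _, _, hy, _⟩ := h.2 u le_rfl
    obtain ⟨⟨hy1, hy2⟩, hy3⟩ : (¬ Big c q (insert y a) ∧ z y = (p', n)) ∧ ι y = i := hy
    obtain ⟨w', hw1, hw2⟩ := exists_of_meets (hAd x) (down_meets _ _ h.1 _ hw)
    have h5 := hι y hy1 hy2
    rw [hy3] at h5
    refine Set.disjoint_left.1 h5 hw2.2.1 (mem_iUnion.2 ⟨⟨w', hw2.1⟩, fun β hβ => ?_⟩)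
    rcases Finset.mem_insert.1 hβ with rfl | hβ
    · exact down_meets _ _ hw' _ hw1
    · exact hw2.2.2 β hβ

theorem exists_big {lv : K → ℕ} {k : ℕ → Cardinal.{0}} (hK : Sing K lv k)
    (hP : #P < #K) (hS : #S = Order.succ #K) {c : K → S → Set P} {q : P}
    (hq : q ∈ fnot (Rect0 c)) :
    ∃ Y : Set S, #K < #Y ∧ ∀ a : Finset S, ↑a ⊆ Y → Big c q a := by
  classical
  have hK0 : ℵ₀ ≤ #K := (hK.inf 0).trans (hK.lt 0).le
  have h0 : Big c q ∅ := by
    intro q' _ θ hθ
    refine ⟨q', le_rfl, ?_⟩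
    have : Fc c q' ∅ = Set.univ := eq_univ_of_forall fun x β hβ => absurd hβ (by simp)
    rw [this, mk_univ]
    exact hθ.le
  obtain ⟨Y, hY⟩ := zorn_subset {Y : Set S | ∀ a : Finset S, ↑a ⊆ Y → Big c q a} (by
    intro C hC hch
    refine ⟨⋃₀ C, fun a ha => ?_, fun s hs => subset_sUnion_of_mem hs⟩
    rcases C.eq_empty_or_nonempty with rfl | hne
    · have : a = ∅ := by simpa using ha
      rw [this]
      exact h0
    · obtain ⟨t, ht, hat⟩ := (hch.directedOn.exists_mem_subset_of_finset_subset_biUnion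
        (f := fun s : Set S => s) hne (s := a) (by rwa [← sUnion_eq_biUnion]))
      exact hC ht a hat)
  refine ⟨Y, ?_, hY.prop⟩
  by_contra hc
  push Not at hc
  let Bad : Set S := Y ∪ ⋃ a : Finset Y, {β | ¬ Big c q (insert β (a.map (.subtype _)))}
  have hBad : #Bad ≤ #K := by
    refine (mk_union_le _ _).trans (add_le_of_le hK0 hc (union_le hK0 ?_ _ fun a => ?_))
    · have h1 : #(Finset Y) ≤ #(List Y) :=
        mk_le_of_surjective (f := fun l : List Y => l.toFinset) fun a => ⟨a.toList, by simp⟩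
      exact h1.trans ((mk_list_le_max _).trans (max_le hK0 hc))
    · refine big_step hK hP hS hq (hY.prop _ ?_)
      intro x hx
      obtain ⟨y, _, rfl⟩ := Finset.mem_map.1 (Finset.mem_coe.1 hx)
      exact y.2
  have : ∃ β, β ∉ Bad := by
    by_contra h
    push Not at h
    have : Bad = Set.univ := eq_univ_of_forall h
    rw [this, mk_univ, hS] at hBad
    exact absurd hBad (not_le.2 (Order.lt_succ _))
  obtain ⟨β, hβ⟩ := this
  have h1 : insert β Y ∈ {Y : Set S | ∀ a : Finset S, ↑a ⊆ Y → Big c q a} := by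
    intro a ha
    by_cases hb : β ∈ a
    · by_contra hn
      refine hβ (Or.inr (mem_iUnion.2 ⟨(a.erase β).subtype (· ∈ Y), ?_⟩))
      have h2 : ((a.erase β).subtype (· ∈ Y)).map (.subtype _) = a.erase β := by
        refine Finset.subtype_map_of_mem fun x hx => ?_
        rcases ha (Finset.mem_coe.2 (Finset.mem_of_mem_erase hx)) with h | h
        · exact absurd h (Finset.ne_of_mem_erase hx)
        · exact h
      show ¬ Big c q (insert β _)
      rw [h2, Finset.insert_erase hb]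
      exact hn
    · refine hY.prop a fun x hx => ?_
      rcases ha hx with h | h
      · exact absurd (h ▸ Finset.mem_coe.1 hx) hb
      · exact h
  have h2 := hY.le_of_ge h1 (subset_insert β Y)
  exact hβ (Or.inl (h2 (mem_insert β Y)))

end Pool.Agent.H605Z.Pol
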