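import Pool.Agent.H605Z.Pol.Main
import Pool.Agent.H68Z.Inj.Main

set_option autoImplicit false

/-!
# An instance of Chang's conjecture from a normal measure
-/

namespace Pool.Agent.H605Z.Pol

open Cardinal Set Pool.Agent.H68Z.Inj

section

variable {κ : Cardinal.{0}} {S : Type} {U : Ultrafilter (SmallSub κ S)}

theorem closed_fin [Nonempty S] (hU : IsNormalMeasure κ S U) (hκ : ℵ₀ < κ) (h : Finset S → S) :
    {x : SmallSub κ S | ∀ a : Finset S, ↑a ⊆ x.1 → h a ∈ x.1} ∈ U := by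
  classical
  have h1 : ∀ (n : ℕ) (h : Finset S → S),
      {x : SmallSub κ S | ∀ a : Finset S, a.card = n → ↑a ⊆ x.1 → h a ∈ x.1} ∈ U := by
    intro n
    induction n with
    | zero =>
      intro h
      refine Filter.mem_of_superset (hU.2.1 (h ∅)) fun x hx a ha _ => ?_
      rw [Finset.card_eq_zero.1 ha]
      exact hx
    | succ n ih =>
      intro h
      refine Filter.mem_of_superset (diag hU id Function.injective_id _
        fun y => ih fun a => h (insert y a)) fun x hx a ha hax => ?_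
      obtain ⟨y, hy⟩ : a.Nonempty := Finset.card_pos.1 (by omega)
      have h2 := hx y (hax (Finset.mem_coe.2 hy)) (a.erase y)
        (by rw [Finset.card_erase_of_mem hy]; omega)
        (fun z hz => hax (Finset.mem_coe.2 (Finset.mem_of_mem_erase (Finset.mem_coe.1 hz))))
      rwa [Finset.insert_erase hy] at h2
  refine Filter.mem_of_superset (all_small hU (I := ℕ) (by rwa [mk_nat]) _ fun n => h1 n h)
    fun x hx a ha => hx a.card a rfl ha

theorem gap (hU : IsNormalMeasure κ S U) (hκ : ℵ₀ < κ) {K : Type} (hK : ℵ₀ ≤ #K)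
    (hS : #K < #S) (ι : K ↪ S) :
    {x : SmallSub κ S | max ℵ₀ #(ι ⁻¹' x.1) < #x.1} ∈ U := by
  classical
  by_contra hc
  have h1 := Ultrafilter.compl_mem_iff_notMem.2 hc
  obtain ⟨u⟩ : #ℕ ≤ #K := by rwa [mk_nat]
  have h2 := all_small hU (I := ℕ) (by rwa [mk_nat]) _ fun n => hU.2.1 (ι (u n))
  have h3 : {x : SmallSub κ S | #x.1 ≤ #(ι ⁻¹' x.1)} ∈ U := by
    refine Filter.mem_of_superset (Filter.inter_mem h1 h2) fun x hx => ?_
    have h4 : #x.1 ≤ max ℵ₀ #(ι ⁻¹' x.1) := not_lt.1 hx.1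
    have h5 : ℵ₀ ≤ #(ι ⁻¹' x.1) := by
      rw [← mk_nat]
      exact mk_le_of_injective (f := fun n => ⟨u n, hx.2 n⟩)
        fun n m h => u.injective (congrArg Subtype.val h)
    rwa [max_eq_right h5] at h4
  have h4 : ∀ x : SmallSub κ S, ∃ g : S → S, #x.1 ≤ #(ι ⁻¹' x.1) →
      InjOn g x.1 ∧ ∀ a ∈ x.1, g a ∈ x.1 ∧ g a ∈ range ι := by
    intro x
    by_cases h : #x.1 ≤ #(ι ⁻¹' x.1)
    · obtain ⟨f⟩ := h
      refine ⟨fun a => if h : a ∈ x.1 then ι (f ⟨a, h⟩) else a, fun _ => ⟨?_, ?_⟩⟩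
      · intro a ha b hb hab
        simp only [dif_pos ha, dif_pos hb] at hab
        exact congrArg Subtype.val (f.injective (Subtype.ext (ι.injective hab)))
      · intro a ha
        simp only [dif_pos ha]
        exact ⟨(f ⟨a, ha⟩).2, _, rfl⟩
    · exact ⟨id, fun h' => absurd h' h⟩
  choose g hg using h4
  have h5 : ∀ a, ∃ y : K, {x : SmallSub κ S | g x a = ι y} ∈ U := by
    intro a
    obtain ⟨b, hb⟩ := hU.2.2 (fun x => g x a) (Filter.mem_of_superset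
      (Filter.inter_mem h3 (hU.2.1 a)) fun x hx => ((hg x hx.1).2 a hx.2).1)
    obtain ⟨x, hx⟩ := U.nonempty_of_mem (Filter.inter_mem hb (Filter.inter_mem h3 (hU.2.1 a)))
    obtain ⟨y, hy⟩ := ((hg x hx.2.1).2 a hx.2.2).2
    have h6 : g x a = b := hx.1
    exact ⟨y, by rw [hy, h6]; exact hb⟩
  choose y hy using h5
  have hinj : Function.Injective y := by
    intro a a' h
    obtain ⟨x, hx⟩ := U.nonempty_of_mem (Filter.inter_mem (Filter.inter_mem (hy a) (hy a'))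
      (Filter.inter_mem h3 (Filter.inter_mem (hU.2.1 a) (hU.2.1 a'))))
    have h6 : g x a = ι (y a) := hx.1.1
    have h7 : g x a' = ι (y a') := hx.1.2
    exact (hg x hx.2.1).1 hx.2.2.1 hx.2.2.2 (by rw [h6, h7, h])
  exact absurd (mk_le_of_injective hinj) (not_le.2 hS)

theorem exists_ch (hU : IsNormalMeasure κ S U) (hκ : ℵ₀ < κ) {K : Type} {lv : K → ℕ}
    {k : ℕ → Cardinal.{0}} (hK : Sing K lv k) (hSL : ∀ θ < #K, 2 ^ θ < #K) (hκK : κ < #K)
    (hS : #K < #S) : ∃ μ, ℵ₀ ≤ μ ∧ μ < κ ∧ Ch K S μ := by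
  classical
  have hK0 : ℵ₀ ≤ #K := (hK.inf 0).trans (hK.lt 0).le
  have : Nonempty S := mk_ne_zero_iff.1 (zero_le.trans_lt hS).ne'
  have : Nonempty K := mk_ne_zero_iff.1 (zero_le.trans_lt hκK).ne'
  by_contra hc
  push Not at hc
  have h1 : ∀ t : Set κ.out, ∃ F : Finset S → ℕ → K, ℵ₀ ≤ #t → #t < κ → ∀ B : Set S, #t < #B →
      #t < #{w | ∃ a : Finset S, ↑a ⊆ B ∧ ∃ m, F a m = w} := by
    intro t
    by_cases h : ℵ₀ ≤ #t ∧ #t < κ
    · have h2 := hc _ h.1 h.2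
      unfold Ch at h2
      push Not at h2
      obtain ⟨F, hF⟩ := h2
      exact ⟨F, fun _ _ => hF⟩
    · exact ⟨fun _ _ => Classical.arbitrary K, fun h1 h2 => absurd ⟨h1, h2⟩ h⟩
  choose F hF using h1
  let W : Type := Σ j : ℕ, (Set κ.out → Set {x // lv x ≤ j})
  obtain ⟨e⟩ : #W ≤ #K := by
    rw [mk_sigma]
    refine (sum_le_mk_mul_iSup _).trans (mul_le_of_le hK0 (by rwa [mk_nat]) (ciSup_le' fun m => ?_))
    rw [← power_def, mk_set, ← power_mul, mk_set, mk_out]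
    exact (hSL _ (mul_lt_of_lt hK0 ((hK.le m).trans_lt (hK.lt m)) (hSL _ hκK))).le
  obtain ⟨ι⟩ := hS.le
  let Φ : Finset S → ℕ → ℕ → W := fun a m j => ⟨j, fun t => {x | x.1 = F t a m}⟩
  have h2 := all_small hU (I := ℕ × ℕ) (by simpa using hκ) _
    fun z => closed_fin hU hκ fun a => ι (e (Φ a z.1 z.2))
  obtain ⟨x, hx1, hx2⟩ := U.nonempty_of_mem (Filter.inter_mem h2 (gap hU hκ hK0 hS ι))
  have hx3 : max ℵ₀ #(ι ⁻¹' x.1) < #x.1 := hx2
  obtain ⟨t, ht⟩ : ∃ t : Set κ.out, #t = max ℵ₀ #(ι ⁻¹' x.1) :=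
    le_mk_iff_exists_set.1 (by rw [mk_out]; exact (hx3.trans x.2).le)
  have h3 := hF t (by rw [ht]; exact le_max_left _ _) (by rw [ht]; exact hx3.trans x.2) x.1
    (by rwa [ht])
  refine absurd h3 (not_lt.2 ?_)
  rw [ht]
  refine le_trans ?_ (le_max_right _ _)
  have h4 : ∀ w : {w | ∃ a : Finset S, ↑a ⊆ x.1 ∧ ∃ m, F t a m = w}, ∃ h : W,
      ι (e h) ∈ x.1 ∧ Subtype.val '' h.2 t = {w.1} := by
    rintro ⟨w, a, ha, m, rfl⟩
    refine ⟨Φ a m (lv (F t a m)), hx1 (m, lv (F t a m)) a ha, ?_⟩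
    ext y
    constructor
    · rintro ⟨z, hz, rfl⟩
      exact hz
    · rintro rfl
      exact ⟨⟨_, le_rfl⟩, rfl, rfl⟩
  choose g hg1 hg2 using h4
  refine mk_le_of_injective (f := fun w => ⟨e (g w), hg1 w⟩) fun w w' h => ?_
  have h5 : g w = g w' := e.injective (congrArg Subtype.val h)
  have h6 := hg2 w
  rw [h5, hg2 w'] at h6
  exact Subtype.ext (singleton_injective h6).symm

end

theorem exists_sing {κ : Cardinal.{0}} (h0 : ℵ₀ < κ) (h1 : κ.ord.cof = ℵ₀) :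
    ∃ lv k, Sing κ.ord.ToType lv k := by
  classical
  have hK : #κ.ord.ToType = κ := by simp
  obtain ⟨s, hs, hs'⟩ := Order.exists_cof_eq κ.ord.ToType
  rw [Ordinal.cof_toType, h1] at hs'
  have : Nonempty κ.ord.ToType := mk_ne_zero_iff.1 (by rw [hK]; exact (aleph0_pos.trans h0).ne')
  obtain ⟨x, hx⟩ := cover (m := ℕ) s (by rw [hs', mk_nat])
  have h2 : ∀ y, ∃ n, y ≤ x n := fun y => by
    obtain ⟨z, hz, hyz⟩ := hs y
    obtain ⟨n, rfl⟩ := hx hz
    exact ⟨n, hyz⟩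
  let lv : κ.ord.ToType → ℕ := fun y => Nat.find (h2 y)
  let k : ℕ → Cardinal.{0} := fun n => max ℵ₀ #{y | lv y ≤ n}
  have hlt : ∀ n, k n < κ := by
    intro n
    refine max_lt h0 ?_
    obtain ⟨b, hb⟩ := ((Set.finite_Iic n).image x).bddAbove
    have h3 : {y | lv y ≤ n} ⊆ insert b (Iio b) := by
      intro y hy
      have h4 : y ≤ b := (Nat.find_spec (h2 y)).trans (hb ⟨_, hy, rfl⟩)
      exact h4.eq_or_lt
    refine (mk_le_mk_of_subset h3).trans_lt (mk_insert_le.trans_lt ?_)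
    exact add_lt_of_lt h0.le (Pool.Agent.Helper980.Polar.mk_Iio_ord_lt b)
      (one_lt_aleph0.trans h0)
  have hcof : ∀ θ < κ, ∃ n, θ < k n := by
    intro θ hθ
    by_contra hc
    push Not at hc
    have h3 : (Set.univ : Set κ.ord.ToType) ⊆ ⋃ n, {y | lv y ≤ n} :=
      fun y _ => mem_iUnion.2 ⟨lv y, le_refl (lv y)⟩
    have h4 : ℵ₀ ≤ θ := (le_max_left _ _).trans (hc 0)
    have h5 := (mk_le_mk_of_subset h3).trans (union_le h4 (by rwa [mk_nat]) _
      fun n => (le_max_right _ _).trans (hc n))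
    rw [mk_univ, hK] at h5
    exact absurd h5 (not_le.2 hθ)
  refine ⟨lv, k, fun n => le_max_left _ _, fun n m h => max_le_max le_rfl
    (mk_le_mk_of_subset fun y hy => le_trans hy h), by rw [hK]; exact hlt, ?_,
    fun n => le_max_right _ _, ?_⟩
  · rw [hK]
    exact fun θ hθ => (hcof θ hθ).imp fun n h => h.le
  · rw [hK]
    intro θ hθ
    obtain ⟨n, hn⟩ := hcof θ hθ
    exact (Order.succ_le_of_lt hn).trans_lt (hlt n)

theorem stg {μ : Cardinal.{0}} (h : ℵ₀ ≤ μ) : Stg (Order.succ μ).ord.ToType μ :=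
  ⟨h, inferInstance, Pool.Agent.Helper980.Polar.mk_Iio_le, fun V hV => by
    obtain ⟨b, hb⟩ := Pool.Agent.Helper980.Polar.exists_bound h hV (fun v : V => v.1)
    exact ⟨b, fun a ha => hb ⟨a, ha⟩⟩⟩

end Pool.Agent.H605Z.Pol
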