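import Pool.Agent.H605Z.Pol.Big

set_option autoImplicit false

/-!
# The forcing notion: a generically chosen finite support iteration of Mathias-Prikry forcings
-/

namespace Pool.Agent.H605Z.Pol

open Cardinal Set Pool.Agent.Helper669.Forcing Pool.Agent.Helper669.K Pool.Agent.Helper980.G

@[ext] structure FP (L M : Type) where
  f : L → List M × Finset L
  fin : {ξ | f ξ ≠ ([], ∅)}.Finite

variable {L M E : Type} [LinearOrder L]

def res (r : FP L M) (γ : L) : FP L M where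
  f ζ := if ζ < γ then r.f ζ else ([], ∅)
  fin := r.fin.subset fun ζ h => by
    by_cases h' : ζ < γ
    · simpa [h'] using h
    · simp [h'] at h

def Supp (r : FP L M) (α : L) : Prop := ∀ ζ, α ≤ ζ → r.f ζ = ([], ∅)

abbrev Dat (L M : Type) : Type := L → L → ℕ → M → Set (FP L M)

def Le (σ : Dat L M) (r' r : FP L M) : Prop :=
  ∀ ξ, (r.f ξ).1 <+: (r'.f ξ).1 ∧ (r.f ξ).2 ⊆ (r'.f ξ).2 ∧
    ∀ n τ, (r'.f ξ).1[n]? = some τ → (r.f ξ).1.length ≤ n → ∀ β ∈ (r.f ξ).2, res r' ξ ∈ σ ξ β n τ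

def Good (σ : Dat L M) (ξ : L) : Prop :=
  (∀ β n τ r r', Supp r ξ → Supp r' ξ → Le σ r' r → r ∈ σ ξ β n τ → r' ∈ σ ξ β n τ) ∧
  ∀ (a : Finset L) n r, Supp r ξ → ∃ r' τ, Supp r' ξ ∧ Le σ r' r ∧ ∀ β ∈ a, r' ∈ σ ξ β n τ

theorem res_lt (r : FP L M) {γ ζ : L} (h : ζ < γ) : (res r γ).f ζ = r.f ζ := if_pos h

theorem res_ge (r : FP L M) {γ ζ : L} (h : γ ≤ ζ) : (res r γ).f ζ = ([], ∅) :=
  if_neg (not_lt.2 h)

theorem supp_res (r : FP L M) (γ : L) : Supp (res r γ) γ := fun _ h => res_ge r h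

theorem Supp.mono {r : FP L M} {α β : L} (h : Supp r α) (h' : α ≤ β) : Supp r β :=
  fun ζ hζ => h ζ (h'.trans hζ)

theorem res_res (r : FP L M) {γ ξ : L} (h : ξ ≤ γ) : res (res r γ) ξ = res r ξ := by
  ext1
  funext ζ
  rcases lt_or_ge ζ ξ with h' | h'
  · rw [res_lt _ h', res_lt _ h', res_lt _ (h'.trans_le h)]
  · rw [res_ge _ h', res_ge _ h']

theorem res_congr {r r' : FP L M} {ξ : L} (h : ∀ ζ < ξ, r.f ζ = r'.f ζ) : res r ξ = res r' ξ := by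
  ext1
  funext ζ
  rcases lt_or_ge ζ ξ with h' | h'
  · rw [res_lt _ h', res_lt _ h', h ζ h']
  · rw [res_ge _ h', res_ge _ h']

theorem Supp.res_eq {r : FP L M} {α : L} (h : Supp r α) : res r α = r := by
  ext1
  funext ζ
  rcases lt_or_ge ζ α with h' | h'
  · rw [res_lt _ h']
  · rw [res_ge _ h', h ζ h']

theorem same_stem {σ : Dat L M} {r' r : FP L M} {ξ : L} (h : (r'.f ξ).1 = (r.f ξ).1)
    (h' : (r.f ξ).2 ⊆ (r'.f ξ).2) : (r.f ξ).1 <+: (r'.f ξ).1 ∧ (r.f ξ).2 ⊆ (r'.f ξ).2 ∧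
    ∀ n τ, (r'.f ξ).1[n]? = some τ → (r.f ξ).1.length ≤ n →
      ∀ β ∈ (r.f ξ).2, res r' ξ ∈ σ ξ β n τ := by
  refine ⟨by rw [h], h', fun n τ h1 h2 => ?_⟩
  rw [h, List.getElem?_eq_none h2] at h1
  cases h1

theorem triv_stem {σ : Dat L M} {r' r : FP L M} {ξ : L} (h : r.f ξ = ([], ∅)) :
    (r.f ξ).1 <+: (r'.f ξ).1 ∧ (r.f ξ).2 ⊆ (r'.f ξ).2 ∧
    ∀ n τ, (r'.f ξ).1[n]? = some τ → (r.f ξ).1.length ≤ n →
      ∀ β ∈ (r.f ξ).2, res r' ξ ∈ σ ξ β n τ := by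
  rw [h]
  exact ⟨List.nil_prefix, Finset.empty_subset _, fun n τ _ _ β hβ => absurd hβ (by simp)⟩

theorem Le.refl (σ : Dat L M) (r : FP L M) : Le σ r r := fun _ => same_stem rfl subset_rfl

theorem Le.congr {σ σ' : Dat L M} {r r' : FP L M} {α : L} (h : Le σ r' r) (hs : Supp r α)
    (hσ : ∀ ξ < α, σ' ξ = σ ξ) : Le σ' r' r := by
  intro ξ
  rcases lt_or_ge ξ α with h' | h'
  · rw [hσ ξ h']
    exact h ξ
  · exact triv_stem (hs ξ h')

theorem Le.res {σ : Dat L M} {r r' : FP L M} (h : Le σ r' r) (γ : L) :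
    Le σ (res r' γ) (res r γ) := by
  intro ξ
  rcases lt_or_ge ξ γ with h' | h'
  · rw [res_lt _ h', res_lt _ h', res_res _ h'.le]
    exact h ξ
  · exact triv_stem (res_ge _ h')

theorem le_res_self (σ : Dat L M) (r : FP L M) (γ : L) : Le σ r (res r γ) := by
  intro ξ
  rcases lt_or_ge ξ γ with h' | h'
  · exact same_stem (by rw [res_lt _ h']) (by rw [res_lt _ h'])
  · exact triv_stem (res_ge _ h')

theorem Le.trans {σ : Dat L M} {α : L} (hg : ∀ ξ < α, Good σ ξ) {r r' r'' : FP L M}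
    (hs : Supp r α) (h : Le σ r'' r') (h' : Le σ r' r) : Le σ r'' r := by
  intro ξ
  rcases lt_or_ge ξ α with hξ | hξ
  · refine ⟨(h' ξ).1.trans (h ξ).1, (h' ξ).2.1.trans (h ξ).2.1, fun n τ h1 h2 β hβ => ?_⟩
    rcases lt_or_ge n (r'.f ξ).1.length with h3 | h3
    · obtain ⟨t, ht⟩ := (h ξ).1
      rw [← ht, List.getElem?_append_left h3] at h1
      exact (hg ξ hξ).1 β n τ _ _ (supp_res _ _) (supp_res _ _) (h.res ξ)
        ((h' ξ).2.2 n τ h1 h2 β hβ)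
    · exact (h ξ).2.2 n τ h1 h3 β ((h' ξ).2.1 hβ)
  · exact triv_stem (hs ξ hξ)

theorem Good.congr {σ σ' : Dat L M} {ξ : L} (h : Good σ ξ) (hσ : ∀ ζ ≤ ξ, σ' ζ = σ ζ) :
    Good σ' ξ := by
  refine ⟨fun β n τ r r' h1 h2 h3 h4 => ?_, fun a n r h1 => ?_⟩
  · rw [hσ ξ le_rfl] at h4 ⊢
    exact h.1 β n τ r r' h1 h2 (h3.congr h1 fun ζ hζ => (hσ ζ hζ.le).symm) h4
  · obtain ⟨r', τ, h2, h3, h4⟩ := h.2 a n r h1
    refine ⟨r', τ, h2, h3.congr h1 fun ζ hζ => hσ ζ hζ.le, ?_⟩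
    rw [hσ ξ le_rfl]
    exact h4

open Classical in
noncomputable def join (r r' : FP L M) : FP L M where
  f ξ := (if r.f ξ = ([], ∅) then (r'.f ξ).1 else (r.f ξ).1, (r.f ξ).2 ∪ (r'.f ξ).2)
  fin := (r.fin.union r'.fin).subset fun ξ h => by
    by_contra hc
    simp only [mem_union, mem_ofPred_eq, not_or, not_not] at hc
    apply h
    simp [hc.1, hc.2]

theorem join_le_left (σ : Dat L M) (r r' : FP L M) : Le σ (join r r') r := by
  classical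
  intro ξ
  by_cases h : r.f ξ = ([], ∅)
  · exact triv_stem h
  · exact same_stem (if_neg h) (fun x hx => by simp [join, hx])

theorem join_le_right (σ : Dat L M) {r r' : FP L M}
    (h : ∀ ξ, (r.f ξ).1 = (r'.f ξ).1 ∨ r.f ξ = ([], ∅) ∨ r'.f ξ = ([], ∅)) :
    Le σ (join r r') r' := by
  classical
  intro ξ
  by_cases h1 : r.f ξ = ([], ∅)
  · exact same_stem (if_pos h1) (fun x hx => by simp [join, hx])
  · rcases h ξ with h2 | h2 | h2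
    · exact same_stem ((if_neg h1).trans h2) (fun x hx => by simp [join, hx])
    · exact absurd h2 h1
    · exact triv_stem h2

theorem supp_join {r r' : FP L M} {α : L} (h : Supp r α) (h' : Supp r' α) :
    Supp (join r r') α := by
  intro ζ hζ
  simp [join, h ζ hζ, h' ζ hζ]

structure St (L M E : Type) [LinearOrder L] where
  α : L
  σ : Dat L M
  c : L → E
  good : ∀ ξ < α, Good σ ξ

instance : Preorder (St L M E) where
  le s s' := s.α ≤ s'.α ∧ ∀ ξ < s.α, s'.σ ξ = s.σ ξ ∧ s'.c ξ = s.c ξ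
  le_refl _ := ⟨le_rfl, fun _ _ => ⟨rfl, rfl⟩⟩
  le_trans _ _ _ h h' := ⟨h.1.trans h'.1, fun ξ hξ =>
    ⟨(h'.2 ξ (hξ.trans_le h.1)).1.trans (h.2 ξ hξ).1,
      (h'.2 ξ (hξ.trans_le h.1)).2.trans (h.2 ξ hξ).2⟩⟩

structure Cond (L M E : Type) [LinearOrder L] where
  s : St L M E
  r : FP L M
  supp : Supp r s.α

instance : Preorder (Cond L M E) where
  le p' p := p.s ≤ p'.s ∧ Le p'.s.σ p'.r p.r
  le_refl p := ⟨le_rfl, Le.refl _ _⟩
  le_trans a b c h h' := ⟨h'.1.trans h.1, Le.trans a.s.good (c.supp.mono (h'.1.1.trans h.1.1)) h.2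
    (h'.2.congr c.supp fun ξ hξ => (h.1.2 ξ (hξ.trans_le h'.1.1)).1)⟩

/-- the type of the stages has the successor of `μ` as its order type -/
structure Stg (L : Type) [LinearOrder L] (μ : Cardinal.{0}) : Prop where
  inf : ℵ₀ ≤ μ
  wf : WellFoundedLT L
  iio : ∀ a : L, #(Iio a) ≤ μ
  bd : ∀ V : Set L, #V ≤ μ → ∃ b, ∀ a ∈ V, a < b

theorem chain_sup {μ : Cardinal.{0}} (hL : Stg L μ) (C : Set (St L M E))
    (hC : IsChain (· ≤ ·) C) (hc : #C ≤ μ) (hne : C.Nonempty) :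
    ∃ u : St L M E, (∀ s ∈ C, s ≤ u) ∧ ∀ ξ < u.α, ∃ s ∈ C, ξ < s.α := by
  classical
  obtain ⟨b, hb⟩ := hL.bd ((fun s => s.α) '' C) (mk_image_le.trans hc)
  obtain ⟨a, ha, hmin⟩ := hL.wf.wf.has_min {a | ∀ s ∈ C, s.α ≤ a}
    ⟨b, fun s hs => (hb _ ⟨s, hs, rfl⟩).le⟩
  have hsup : ∀ ξ < a, ∃ s ∈ C, ξ < s.α := by
    intro ξ hξ
    by_contra h
    push Not at h
    exact hmin ξ h hξ
  obtain ⟨s0, hs0⟩ := hne
  let g : L → St L M E := fun ξ => if h : ∃ s ∈ C, ξ < s.α then h.choose else s0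
  have hg : ∀ s ∈ C, ∀ ξ < s.α, (g ξ).σ ξ = s.σ ξ ∧ (g ξ).c ξ = s.c ξ := by
    intro s hs ξ hξ
    have h : ∃ s ∈ C, ξ < s.α := ⟨s, hs, hξ⟩
    have h1 : g ξ = h.choose := dif_pos h
    have h2 := h.choose_spec
    rw [← h1] at h2
    rcases hC.total h2.1 hs with h3 | h3
    · exact ⟨(h3.2 ξ h2.2).1.symm, (h3.2 ξ h2.2).2.symm⟩
    · exact h3.2 ξ hξ
  refine ⟨⟨a, fun ξ => (g ξ).σ ξ, fun ξ => (g ξ).c ξ, fun ξ hξ => ?_⟩,
    fun s hs => ⟨ha s hs, hg s hs⟩, hsup⟩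
  obtain ⟨s, hs, h⟩ := hsup ξ hξ
  exact (s.good ξ h).congr fun ζ hζ => (hg s hs ζ (hζ.trans_lt h)).1

theorem good_triv [Nonempty M] {σ : Dat L M} {ξ : L} (h : σ ξ = fun _ _ _ => Set.univ) :
    Good σ ξ := by
  refine ⟨fun β n τ r r' _ _ _ _ => by rw [h]; trivial, fun a n r hr =>
    ⟨r, Classical.arbitrary M, hr, Le.refl _ _, fun β _ => by rw [h]; trivial⟩⟩

theorem extend [Nonempty M] (s : St L M E) (d : L → ℕ → M → Set (FP L M)) (e : E)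
    (h1 : ∀ β n τ r r', Supp r s.α → Supp r' s.α → Le s.σ r' r → r ∈ d β n τ → r' ∈ d β n τ)
    (h2 : ∀ (a : Finset L) n r, Supp r s.α →
      ∃ r' τ, Supp r' s.α ∧ Le s.σ r' r ∧ ∀ β ∈ a, r' ∈ d β n τ)
    {α' : L} (hα : s.α < α') :
    ∃ s' : St L M E, s ≤ s' ∧ s'.α = α' ∧ s'.σ s.α = d ∧ s'.c s.α = e := by
  classical
  let σ' : Dat L M := fun ξ => if ξ < s.α then s.σ ξ else if ξ = s.α then d else
    fun _ _ _ => Set.univ
  have hlt : ∀ ξ < s.α, σ' ξ = s.σ ξ := fun ξ h => if_pos h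
  have heq : σ' s.α = d := by simp [σ']
  refine ⟨⟨α', σ', fun ξ => if ξ < s.α then s.c ξ else e, fun ξ _ => ?_⟩,
    ⟨hα.le, fun ξ hξ => ⟨hlt ξ hξ, if_pos hξ⟩⟩, rfl, heq, if_neg (lt_irrefl _)⟩
  rcases lt_trichotomy ξ s.α with h | h | h
  · exact (s.good ξ h).congr fun ζ hζ => hlt ζ (hζ.trans_lt h)
  · rw [h]
    refine ⟨fun β n τ r r' h3 h4 h5 h6 => ?_, fun a n r h3 => ?_⟩
    · rw [heq] at h6 ⊢
      exact h1 β n τ r r' h3 h4 (h5.congr h3 fun ζ hζ => (hlt ζ hζ).symm) h6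
    · obtain ⟨r', τ, h4, h5, h6⟩ := h2 a n r h3
      exact ⟨r', τ, h4, h5.congr h3 hlt, by rw [heq]; exact h6⟩
  · exact good_triv (by simp [σ', h.ne', not_lt.2 h.le])

/-- change one coordinate -/
noncomputable def upd (r' r : FP L M) (ξ : L) (v : List M × Finset L) : FP L M where
  f ζ := if ζ < ξ then r'.f ζ else if ζ = ξ then v else r.f ζ
  fin := ((r'.fin.union r.fin).insert ξ).subset fun ζ h => by
    by_cases h1 : ζ < ξ
    · exact Or.inr (Or.inl (by simpa [h1] using h))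
    · by_cases h2 : ζ = ξ
      · exact Or.inl h2
      · exact Or.inr (Or.inr (by simpa [h1, h2] using h))

theorem upd_lt (r' r : FP L M) {ξ ζ : L} (v : List M × Finset L) (h : ζ < ξ) :
    (upd r' r ξ v).f ζ = r'.f ζ := if_pos h

theorem upd_eq (r' r : FP L M) (ξ : L) (v : List M × Finset L) : (upd r' r ξ v).f ξ = v := by
  simp [upd]

theorem upd_gt (r' r : FP L M) {ξ ζ : L} (v : List M × Finset L) (h : ξ < ζ) :
    (upd r' r ξ v).f ζ = r.f ζ := by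
  simp [upd, h.ne', not_lt.2 h.le]

theorem stem_step (p : Cond L M E) {ξ : L} (hξ : ξ < p.s.α) {r' : FP L M} (h1 : Supp r' ξ)
    (h2 : Le p.s.σ r' (res p.r ξ)) (τ : M)
    (h3 : ∀ β ∈ (p.r.f ξ).2, r' ∈ p.s.σ ξ β (p.r.f ξ).1.length τ) :
    ∃ p' ≤ p, p'.s = p.s ∧ p'.r.f ξ = ((p.r.f ξ).1 ++ [τ], (p.r.f ξ).2) ∧ res p'.r ξ = r' := by
  have h4 : res (upd r' p.r ξ ((p.r.f ξ).1 ++ [τ], (p.r.f ξ).2)) ξ = r' := by
    rw [← h1.res_eq]
    exact res_congr fun ζ hζ => by rw [upd_lt _ _ _ hζ, h1.res_eq]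
  refine ⟨⟨p.s, upd r' p.r ξ ((p.r.f ξ).1 ++ [τ], (p.r.f ξ).2), fun ζ hζ => ?_⟩,
    ⟨le_rfl, fun ζ => ?_⟩, rfl, upd_eq _ _ _ _, h4⟩
  · rw [upd_gt _ _ _ (hξ.trans_le hζ)]
    exact p.supp ζ hζ
  · rcases lt_trichotomy ζ ξ with h | h | h
    · have h5 := h2 ζ
      rw [res_lt _ h] at h5
      show _ <+: ((upd _ _ _ _).f ζ).1 ∧ _ ⊆ ((upd _ _ _ _).f ζ).2 ∧
        ∀ n τ, ((upd _ _ _ _).f ζ).1[n]? = some τ → _ → ∀ β ∈ _, res (upd _ _ _ _) ζ ∈ _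
      rw [upd_lt _ _ _ h, res_congr (r' := r') fun η hη => upd_lt _ _ _ (hη.trans h)]
      exact h5
    · subst h
      show _ <+: ((upd _ _ _ _).f ζ).1 ∧ _ ⊆ ((upd _ _ _ _).f ζ).2 ∧
        ∀ n τ, ((upd _ _ _ _).f ζ).1[n]? = some τ → _ → ∀ β ∈ _, res (upd _ _ _ _) ζ ∈ _
      rw [upd_eq, h4]
      refine ⟨List.prefix_append _ _, subset_rfl, fun n τ' h5 h6 β hβ => ?_⟩
      rw [List.getElem?_append_right h6] at h5
      have h7 : n - (p.r.f ζ).1.length = 0 := by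
        by_contra h8
        rw [List.getElem?_eq_none (by simp; omega)] at h5
        cases h5
      rw [h7] at h5
      have h8 : n = (p.r.f ζ).1.length := by omega
      have h9 : τ = τ' := by simpa using h5
      rw [h8, ← h9]
      exact h3 β hβ
    · exact same_stem (by rw [upd_gt _ _ _ h]) (by rw [upd_gt _ _ _ h])

theorem side_step (p : Cond L M E) {ξ : L} (hξ : ξ < p.s.α) (β : L) :
    ∃ p' ≤ p, p'.s = p.s ∧ (p'.r.f ξ).1 = (p.r.f ξ).1 ∧ β ∈ (p'.r.f ξ).2 := by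
  classical
  refine ⟨⟨p.s, upd p.r p.r ξ ((p.r.f ξ).1, insert β (p.r.f ξ).2), fun ζ hζ => ?_⟩,
    ⟨le_rfl, fun ζ => ?_⟩, rfl, by rw [upd_eq], by rw [upd_eq]; simp⟩
  · rw [upd_gt _ _ _ (hξ.trans_le hζ)]
    exact p.supp ζ hζ
  · rcases lt_trichotomy ζ ξ with h | h | h
    · exact same_stem (by rw [upd_lt _ _ _ h]) (by rw [upd_lt _ _ _ h])
    · subst h
      exact same_stem (by rw [upd_eq]) (by rw [upd_eq]; exact Finset.subset_insert _ _)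
    · exact same_stem (by rw [upd_gt _ _ _ h]) (by rw [upd_gt _ _ _ h])

/-- the finite set `t` describes the stems of `r` below `γ` -/
def Pat (γ : L) (t : Finset (Iio γ × List M)) (r : FP L M) : Prop :=
  ∀ (ξ : Iio γ) (l : List M), (ξ, l) ∈ t ↔ (r.f ξ).1 = l ∧ l ≠ []

theorem exists_pat (γ : L) (r : FP L M) : ∃ t, Pat γ t r := by
  have h : {z : Iio γ × List M | (r.f z.1).1 = z.2 ∧ z.2 ≠ []}.Finite := by
    refine Finite.of_finite_image (f := fun z => z.1.1) (r.fin.subset ?_) ?_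
    · rintro _ ⟨z, hz, rfl⟩ h
      apply hz.2
      rw [← hz.1, h]
    · intro z hz z' hz' h
      have h1 : z.1 = z'.1 := Subtype.ext h
      exact Prod.ext h1 (by rw [← hz.1, ← hz'.1, h1])
  exact ⟨h.toFinset, fun ξ l => by simp⟩

theorem Pat.eq {γ : L} {t : Finset (Iio γ × List M)} {r r' : FP L M} (h : Pat γ t r)
    (h' : Pat γ t r') {ξ : L} (hξ : ξ < γ) : (r.f ξ).1 = (r'.f ξ).1 := by
  by_cases h1 : (r.f ξ).1 = []
  · by_cases h2 : (r'.f ξ).1 = []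
    · rw [h1, h2]
    · exact ((h ⟨ξ, hξ⟩ _).1 ((h' ⟨ξ, hξ⟩ _).2 ⟨rfl, h2⟩)).1
  · exact ((h' ⟨ξ, hξ⟩ _).1 ((h ⟨ξ, hξ⟩ _).2 ⟨rfl, h1⟩)).1.symm

theorem mk_finset_le {X : Type} {μ : Cardinal.{0}} (hμ : ℵ₀ ≤ μ) (h : #X ≤ μ) :
    #(Finset X) ≤ μ := by
  classical
  have h1 : #(Finset X) ≤ #(List X) :=
    mk_le_of_surjective (f := fun l : List X => l.toFinset) fun a => ⟨a.toList, by simp⟩
  exact h1.trans ((mk_list_le_max _).trans (max_le hμ h))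

theorem mk_pat {μ : Cardinal.{0}} (hL : Stg L μ) (hM : #M ≤ μ) (γ : L) :
    #(Finset (Iio γ × List M)) ≤ μ := by
  refine mk_finset_le hL.inf ?_
  rw [mk_prod, lift_id, lift_id]
  exact mul_le_of_le hL.inf (hL.iio γ) ((mk_list_le_max _).trans (max_le hL.inf hM))

theorem key_lemma {μ : Cardinal.{0}} (hL : Stg L μ) (hM : #M ≤ μ) {ι : Type} (hι : #ι ≤ μ)
    (D : ι → Set (Cond L M E)) (s : St L M E) :
    ∃ s', s ≤ s' ∧ ∃ W : ι → Set (Cond L M E),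
      (∀ i, W i ⊆ D i ∧ #(W i) ≤ μ ∧ ∀ w ∈ W i, w.s ≤ s') ∧
      ∀ i q, s' ≤ q.s → q ∈ D i → ∃ w ∈ W i, ∃ t, t ≤ q ∧ t ≤ w := by
  classical
  have hstep : ∀ u : St L M E, ∃ u', u ≤ u' ∧ ∀ (i : ι) (t : Finset (Iio u.α × List M)),
      (∃ w ∈ D i, w.s ≤ u' ∧ Pat u.α t w.r) ∨ ∀ w ∈ D i, u' ≤ w.s → ¬ Pat u.α t w.r := by
    intro u
    obtain ⟨u', h1, h2⟩ := baire hL.inf
      (fun C h1 h2 h3 => (chain_sup hL C h1 h2 h3).imp fun _ h => h.1)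
      (ι := ι × Finset (Iio u.α × List M))
      (by rw [mk_prod, lift_id, lift_id]; exact mul_le_of_le hL.inf hι (mk_pat hL hM _))
      (fun z => {u' | (∃ w ∈ D z.1, w.s ≤ u' ∧ Pat u.α z.2 w.r) ∨
        ∀ w ∈ D z.1, u' ≤ w.s → ¬ Pat u.α z.2 w.r})
      (by
        rintro z a (⟨w, h1, h2, h3⟩ | h) b hab
        · exact Or.inl ⟨w, h1, h2.trans hab, h3⟩
        · exact Or.inr fun w h1 h2 => h w h1 (hab.trans h2))
      (by
        intro z a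
        by_cases h : ∀ w ∈ D z.1, a ≤ w.s → ¬ Pat u.α z.2 w.r
        · exact ⟨a, le_rfl, Or.inr h⟩
        · push Not at h
          obtain ⟨w, h1, h2, h3⟩ := h
          exact ⟨w.s, h2, Or.inl ⟨w, h1, le_rfl, h3⟩⟩) u
    exact ⟨u', h1, fun i t => h2 (i, t)⟩
  choose nx hnx1 hnx2 using hstep
  let u : ℕ → St L M E := fun n => nx^[n] s
  have hu : ∀ n, u (n + 1) = nx (u n) := fun n => Function.iterate_succ_apply' _ _ _
  have hmono : Monotone u := monotone_nat_of_le_succ fun n => by rw [hu]; exact hnx1 _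
  obtain ⟨s', h1, h2⟩ := chain_sup hL (range u)
    (by
      rintro _ ⟨n, rfl⟩ _ ⟨m, rfl⟩ _
      exact (le_total n m).imp (fun h => hmono h) (fun h => hmono h))
    (mk_range_le.trans (by rw [mk_nat]; exact hL.inf)) ⟨_, 0, rfl⟩
  have h3 : ∀ (n : ℕ) (i : ι) (t : Finset (Iio (u n).α × List M)), ∃ O : Set (Cond L M E),
      O ⊆ D i ∧ #O ≤ μ ∧ (∀ w ∈ O, w.s ≤ s') ∧
      ∀ q ∈ D i, s' ≤ q.s → Pat (u n).α t q.r → ∃ w ∈ O, Pat (u n).α t w.r := by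
    intro n i t
    have h4 : nx (u n) ≤ s' := h1 _ ⟨n + 1, hu n⟩
    rcases hnx2 (u n) i t with ⟨w, h5, h6, h7⟩ | h
    · refine ⟨{w}, singleton_subset_iff.2 h5, by rw [mk_singleton]; exact one_le_aleph0.trans hL.inf,
        fun w' hw' => ?_, fun q _ _ _ => ⟨w, rfl, h7⟩⟩
      rw [hw']
      exact h6.trans h4
    · exact ⟨∅, empty_subset _, by simp, by simp, fun q h5 h6 h7 => absurd h7 (h q h5 (h4.trans h6))⟩
  choose O hO1 hO2 hO3 hO4 using h3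
  refine ⟨s', h1 _ ⟨0, rfl⟩, fun i => ⋃ n, ⋃ t, O n i t, fun i => ⟨?_, ?_, ?_⟩, ?_⟩
  · exact iUnion_subset fun n => iUnion_subset fun t => hO1 n i t
  · exact union_le hL.inf (by rw [mk_nat]; exact hL.inf) _ fun n =>
      union_le hL.inf (mk_pat hL hM _) _ fun t => hO2 n i t
  · intro w hw
    obtain ⟨n, hw⟩ := mem_iUnion.1 hw
    obtain ⟨t, hw⟩ := mem_iUnion.1 hw
    exact hO3 n i t w hw
  · intro i q hq hD
    have h4 : ∃ n, ∀ ξ, ξ < s'.α → q.r.f ξ ≠ ([], ∅) → ξ < (u n).α := by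
      have h5 : ∀ ξ, ∃ n, ξ < s'.α → ξ < (u n).α := by
        intro ξ
        by_cases h : ξ < s'.α
        · obtain ⟨_, ⟨n, rfl⟩, hn⟩ := h2 ξ h
          exact ⟨n, fun _ => hn⟩
        · exact ⟨0, fun h' => absurd h' h⟩
      choose g hg using h5
      obtain ⟨n, hn⟩ := (q.r.fin.image g).bddAbove
      exact ⟨n, fun ξ h6 h7 => (hg ξ h6).trans_le (hmono (hn ⟨ξ, h7, rfl⟩)).1⟩
    obtain ⟨n, hn⟩ := h4
    obtain ⟨t, ht⟩ := exists_pat (u n).α q.r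
    obtain ⟨w, hw, hwt⟩ := hO4 n i t q hD hq ht
    have hws := hO3 n i t w hw
    refine ⟨w, mem_iUnion.2 ⟨n, mem_iUnion.2 ⟨t, hw⟩⟩,
      ⟨q.s, join q.r w.r, supp_join q.supp (w.supp.mono (hws.1.trans hq.1))⟩,
      ⟨le_rfl, join_le_left _ _ _⟩, ⟨hws.trans hq, join_le_right _ fun ξ => ?_⟩⟩
    rcases lt_or_ge ξ (u n).α with h5 | h5
    · exact Or.inl (ht.eq hwt h5)
    · rcases lt_or_ge ξ s'.α with h6 | h6
      · refine Or.inr (Or.inl ?_)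
        by_contra h7
        exact absurd (hn ξ h6 h7) (not_lt.2 h5)
      · exact Or.inr (Or.inr (w.supp ξ (hws.1.trans h6)))

theorem cov {μ : Cardinal.{0}} (hL : Stg L μ) (hM : #M ≤ μ) : Cov (Cond L M E) μ := by
  intro p ι hι D
  obtain ⟨s', h1, W, h2, h3⟩ := key_lemma hL hM hι D p.s
  exact ⟨⟨s', p.r, p.supp.mono h1.1⟩, ⟨h1, Le.refl _ _⟩, W, fun i => ⟨(h2 i).1, (h2 i).2.1⟩,
    fun i q hq hD => h3 i q hq.1 hD⟩

end Pool.Agent.H605Z.Pol
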