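import Pool.Agent.Helper980.Polar.Gch

set_option autoImplicit false

/-!
# Cardinals of a forcing extension
-/

namespace Pool.Agent.H605Z.Pol

open Cardinal Pool.Agent.Helper669.Forcing Pool.Agent.Helper980.G

variable (P : Type) [Preorder P]

/-- `ν` is a cardinal of the extension: no function from a smaller cardinal is onto `ν`. -/
def StaysCard (ν : Cardinal.{0}) : Set P :=
  fall fun θ : Cardinal.{0} => fall fun _ : θ < ν =>
    fnot (fex fun R : θ.out → ν.out → Set P => fand (IsFun R) (IsOnto R))

/-- All conditions force that `b` is the successor cardinal of `|a|`: `a < b`, `b` is a cardinal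
and every smaller cardinal of the ground model has size at most `|a|`. -/
def IsNext (a b : Cardinal.{0}) : Prop :=
  a < b ∧ ∀ p : P, p ∈ StaysCard P b ∧ ∀ θ < b, p ∈ SizeLe P θ.out a.out

/-- `P` is a nonempty forcing notion all of whose conditions force: GCH, `w = ℵ₁`, `κ > w` is a
cardinal, and the ground model successor of `κ` is the successor of `κ`. -/
def Setting (w κ : Cardinal.{0}) : Prop :=
  Nonempty P ∧ IsNext P ℵ₀ w ∧ w < κ ∧ IsNext P κ (Order.succ κ) ∧
    ∀ p : P, p ∈ StaysCard P κ ∧ p ∈ ForcesGCH P

/-- All conditions force `a n = ℵ_n` for every `n`. -/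
def Alephs (a : ℕ → Cardinal.{0}) : Prop :=
  a 0 = ℵ₀ ∧ ∀ n, IsNext P (a n) (a (n + 1))

variable {P}

/-- All conditions force `φ` (if `b` is true), or all conditions force its negation (if `b` is
false). -/
def Decides (b : Bool) (φ : Set P) : Prop :=
  ∀ p : P, p ∈ (if b = true then φ else fnot φ)

end Pool.Agent.H605Z.Pol
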