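import Pool.Agent.H605Z.Pol.Chang
import Pool.Agent.H605Z.Pol.Defs

set_option autoImplicit false

namespace Pool.Agent.H605Z.Pol

open Cardinal Set Pool.Agent.Helper669.Forcing Pool.Agent.Helper669.K Pool.Agent.Helper980.G
  Pool.Agent.H68Z.Inj

section

variable {P : Type} [Preorder P]

theorem stays_of_notSizeLe {ν : Cardinal.{0}}
    (h : ∀ θ < ν, ∀ p : P, p ∈ fnot (SizeLe P ν.out θ.out)) (p : P) : p ∈ StaysCard P ν := by
  intro θ hθ q _ hq
  obtain ⟨r, _, R, h1, h2⟩ := mem_fex.1 hq q le_rfl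
  refine h θ hθ r r le_rfl (sizeLe_of_onto R ?_ ?_)
  · exact fun s hs x y y' h3 h4 => IsFun.unique (down_IsFun _ _ h1 _ hs) h3 h4
  · exact fun s hs y => mem_fex.1 (h2 y) s hs

theorem stays_big {ν : Cardinal.{0}} (h0 : ℵ₀ ≤ ν) (h : #P < ν) (p : P) : p ∈ StaysCard P ν :=
  stays_of_notSizeLe (fun θ hθ => notSizeLe_big (by
    rw [mk_out, mk_out]; exact mul_lt_of_lt h0 h hθ)) p

theorem isNext_succ {a : Cardinal.{0}} (h : ∀ p : P, p ∈ StaysCard P (Order.succ a)) :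
    IsNext P a (Order.succ a) :=
  ⟨Order.lt_succ a, fun p => ⟨h p, fun θ hθ => sizeLe_of_le (by
    rw [mk_out, mk_out]; exact Order.lt_succ_iff.1 hθ) p⟩⟩

theorem stays_of_pres {ν : Cardinal.{0}} (h0 : ℵ₀ < ν) {p : P}
    (h : p ∈ CardinalsPreserved.{0, 0} P) : p ∈ StaysCard P ν :=
  fun θ hθ => h θ ν hθ h0

end

theorem cof_sup {a : ℕ → Cardinal.{0}} (h : StrictMono a) : (⨆ n, a n).ord.cof = ℵ₀ := by
  rw [Ordinal.iSup_ord, Ordinal.cof_iSup (f := fun n => (a n).ord)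
    (fun n m hnm => ord_lt_ord.2 (h hnm))]
  simp

theorem lt_sup {a : ℕ → Cardinal.{0}} (h : StrictMono a) (n : ℕ) : a n < ⨆ n, a n :=
  (h (Nat.lt_succ_self n)).trans_le (le_ciSup bddAbove_of_small (n + 1))

theorem positive (hG : ∀ ν : Cardinal.{0}, ℵ₀ ≤ ν → 2 ^ ν = Order.succ ν) {κ₀ κ : Cardinal.{0}}
    (h : IsSupercompact κ₀) (h0 : κ₀ < κ) (h1 : κ.ord.cof = ℵ₀) :
    ∃ (P : Type) (_ : Preorder P) (w : Cardinal.{0}), Setting P w κ ∧ w ≤ κ₀ ∧
      (∀ p : P, p ∈ RelationR P κ.ord.ToType (Order.succ κ).ord.ToType w.ord.ToType) ∧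
      IsNext P w (Order.succ (Order.succ κ₀)) ∧
      ∀ ν, Order.succ κ₀ < ν → ∀ p : P, p ∈ StaysCard P ν := by
  have hκ : ℵ₀ < κ := h.1.trans h0
  obtain ⟨lv, k, hK⟩ := exists_sing hκ h1
  have hmK : #κ.ord.ToType = κ := by simp
  have hmS : #(Order.succ κ).ord.ToType = Order.succ κ := by simp
  have hlim : ∀ θ < κ, Order.succ θ < κ := by
    have := hK.lim
    rwa [hmK] at this
  have hSL : ∀ θ < #κ.ord.ToType, 2 ^ θ < #κ.ord.ToType := by
    rw [hmK]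
    intro θ hθ
    have h2 : ℵ₀ ≤ max θ ℵ₀ := le_max_right _ _
    refine (power_le_power_left two_ne_zero (le_max_left θ ℵ₀)).trans_lt ?_
    rw [hG _ h2]
    exact hlim _ (max_lt hθ hκ)
  obtain ⟨U, hU⟩ := h.2 (Order.succ κ).ord.ToType (by rw [hmS]; exact h0.le.trans (Order.le_succ κ))
  obtain ⟨μ, hμ0, hμ, hC⟩ := exists_ch hU h.1 hK hSL (by rwa [hmK])
    (by rw [hmK, hmS]; exact Order.lt_succ κ)
  have hL := stg hμ0
  let L : Type := (Order.succ μ).ord.ToType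
  have hmL : #L = Order.succ μ := by simp [L]
  have hM : #μ.out = μ := mk_out μ
  have hE : #(Order.succ κ₀).out = Order.succ κ₀ := mk_out _
  have : Nonempty μ.out := mk_ne_zero_iff.1 (by rw [hM]; exact (aleph0_pos.trans_le hμ0).ne')
  have : Nonempty (Order.succ κ₀).out :=
    mk_ne_zero_iff.1 (by rw [hE]; exact (Order.bot_lt_succ _).ne')
  have : Nonempty L := mk_ne_zero_iff.1 (by rw [hmL]; exact (Order.bot_lt_succ _).ne')
  have hLκ : #L ≤ κ₀ := by rw [hmL]; exact Order.succ_le_of_lt hμ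
  have hP : #(Cond L μ.out (Order.succ κ₀).out) ≤ Order.succ κ₀ := by
    have := mk_cond (L := L) (M := μ.out) (E := (Order.succ κ₀).out)
      (by rw [hmL]; exact hμ0.trans (Order.le_succ μ)) (by rw [hM, hmL]; exact Order.le_succ μ) hLκ
      (by rw [hG _ h.1.le, hE])
    rwa [hG _ h.1.le] at this
  have hbig : ∀ ν, Order.succ κ₀ < ν → ∀ p : Cond L μ.out (Order.succ κ₀).out,
      p ∈ StaysCard _ ν := fun ν hν =>
    stays_big (h.1.le.trans ((Order.le_succ _).trans hν.le)) (hP.trans_lt hν)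
  have hne : Nonempty (Cond L μ.out (Order.succ κ₀).out) := by
    obtain ⟨a, ha⟩ := hL.wf.wf.has_min (Set.univ : Set L) univ_nonempty
    exact ⟨⟨⟨a, fun _ _ _ _ => Set.univ, fun _ => Classical.arbitrary _,
      fun ξ hξ => absurd hξ (ha.2 ξ (mem_univ _))⟩, ⟨fun _ => ([], ∅), by simp⟩, fun _ _ => rfl⟩⟩
  refine ⟨Cond L μ.out (Order.succ κ₀).out, inferInstance, Order.succ μ,
    ⟨hne, ⟨hμ0.trans_lt (Order.lt_succ μ), fun p => ⟨?_, fun θ hθ => ?_⟩⟩,
      (Order.succ_le_of_lt hμ).trans_lt h0,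
      isNext_succ (hbig _ ((hlim _ h0).trans (Order.lt_succ κ))),
      fun p => ⟨hbig _ (hlim _ h0) p, forces_gch hG hL hM hmL hLκ hE p⟩⟩,
    Order.succ_le_of_lt hμ, fun p => ?_, ⟨?_, fun p => ⟨hbig _ (Order.lt_succ _) p,
      fun θ hθ => ?_⟩⟩, hbig⟩
  · refine stays_of_notSizeLe (fun θ hθ => (cov hL hM.le).notSizeLe hμ0 ?_ ?_) p
    · rw [mk_out]
      exact Order.lt_succ_iff.1 hθ
    · rw [mk_out]
      exact Order.lt_succ μ
  · exact sizeLe_trans (sizeLe_of_le (X := μ.out)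
      (by rw [mk_out, hM]; exact Order.lt_succ_iff.1 hθ) p)
      (sizeLe_trans (collapse_M hL p) (sizeLe_of_le (by rw [mk_nat, mk_out]) p))
  · exact forces_R hL hM hmL hK hSL (by rw [hmK]; exact hP.trans_lt (hlim _ h0))
      (by rw [hmS, hmK]) hC p
  · exact (Order.succ_le_of_lt hμ).trans_lt ((Order.lt_succ _).trans (Order.lt_succ _))
  · exact sizeLe_trans (sizeLe_of_le (X := (Order.succ κ₀).out)
      (by rw [mk_out, hE]; exact Order.lt_succ_iff.1 hθ) p)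
      (sizeLe_trans (collapse_E hL p) (sizeLe_of_le (by rw [hmL, mk_out]) p))

theorem positive_omega (hG : ∀ ν : Cardinal.{0}, ℵ₀ ≤ ν → 2 ^ ν = Order.succ ν)
    {κ₀ : Cardinal.{0}} (h : IsSupercompact κ₀) :
    ∃ (P : Type) (_ : Preorder P) (a : ℕ → Cardinal.{0}), Alephs P a ∧
      Setting P (a 1) (⨆ n, a n) ∧ ∀ p : P, p ∈ RelationR P (⨆ n, a n).ord.ToType
        (Order.succ (⨆ n, a n)).ord.ToType (a 1).ord.ToType := by
  let b : ℕ → Cardinal.{0} := fun n => Order.succ^[n] κ₀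
  have hb : ∀ n, b (n + 1) = Order.succ (b n) := fun n => Function.iterate_succ_apply' _ _ _
  have hbm : StrictMono b := strictMono_nat_of_lt_succ fun n => by rw [hb]; exact Order.lt_succ _
  obtain ⟨P, i, w, h1, h2, h3, h4, h5⟩ := positive hG h (lt_sup hbm 0) (cof_sup hbm)
  let a : ℕ → Cardinal.{0} := fun n => match n with
    | 0 => ℵ₀
    | 1 => w
    | (n + 2) => b (n + 2)
  have hab : ⨆ n, a n = ⨆ n, b n := by
    refine le_antisymm (ciSup_le' fun n => ?_) (ciSup_le' fun n => ?_)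
    · match n with
      | 0 => exact h.1.le.trans (lt_sup hbm 0).le
      | 1 => exact h2.trans (lt_sup hbm 0).le
      | (n + 2) => exact (lt_sup hbm (n + 2)).le
    · exact (hbm (show n < n + 2 by omega)).le.trans (le_ciSup (f := a) bddAbove_of_small (n + 2))
  refine ⟨P, i, a, ⟨rfl, fun n => ?_⟩, by rw [hab]; exact h1, by rw [hab]; exact h3⟩
  match n with
  | 0 => exact h1.2.1
  | 1 => exact h4
  | (n + 2) =>
    show IsNext P (b (n + 2)) (b (n + 2 + 1))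
    rw [hb (n + 2)]
    refine isNext_succ (h5 _ ?_)
    rw [← hb (n + 2)]
    exact hbm (show 1 < n + 2 + 1 by omega)

theorem setting_of_pres {P : Type} [Preorder P] (hne : Nonempty P) {κ : Cardinal.{0}}
    (h0 : ℵ₀ < κ) (h1 : κ.ord.cof = ℵ₀)
    (h : ∀ p : P, p ∈ CardinalsPreserved.{0, 0} P ∧ p ∈ ForcesGCH P) :
    Setting P (ℵ_ 1) κ := by
  obtain ⟨lv, k, hK⟩ := exists_sing h0 h1
  have hlim : ∀ θ < κ, Order.succ θ < κ := by
    have := hK.lim
    rwa [show #κ.ord.ToType = κ by simp] at this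
  refine ⟨hne, ?_, ?_, isNext_succ fun p => stays_of_pres (h0.trans (Order.lt_succ κ)) (h p).1,
    fun p => ⟨stays_of_pres h0 (h p).1, (h p).2⟩⟩
  · rw [← succ_aleph0]
    exact isNext_succ fun p => stays_of_pres (Order.lt_succ _) (h p).1
  · rw [← succ_aleph0]
    exact hlim _ h0

theorem alephs_of_pres {P : Type} [Preorder P]
    (h : ∀ p : P, p ∈ CardinalsPreserved.{0, 0} P) : Alephs P fun n => ℵ_ n := by
  refine ⟨by simp, fun n => ?_⟩
  have h1 : (ℵ_ ((n + 1 : ℕ) : Ordinal.{0}) : Cardinal.{0}) = Order.succ (ℵ_ n) := by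
    rw [Nat.cast_succ, succ_aleph]
  show IsNext P (ℵ_ n) (ℵ_ ((n + 1 : ℕ) : Ordinal.{0}))
  rw [h1]
  exact isNext_succ fun p => stays_of_pres ((aleph0_le_aleph _).trans_lt (Order.lt_succ _)) (h p)

theorem aleph_mono : StrictMono fun n : ℕ => (ℵ_ n : Cardinal.{0}) :=
  fun _ _ h => aleph_lt_aleph.2 (Nat.cast_lt.2 h)

theorem mainR (hG : ∀ ν : Cardinal.{0}, ℵ₀ ≤ ν → 2 ^ ν = Order.succ ν) (κ₀ : Cardinal.{0})
    (h : IsSupercompact κ₀) (b : Bool) :
    (∃ (P : Type) (_ : Preorder P) (a : ℕ → Cardinal.{0}), Alephs P a ∧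
      Setting P (a 1) (⨆ n, a n) ∧ Decides b (RelationR P (⨆ n, a n).ord.ToType
        (Order.succ (⨆ n, a n)).ord.ToType (a 1).ord.ToType)) ∧
    ∀ κ : Cardinal.{0}, κ₀ < κ → κ.ord.cof = ℵ₀ →
      ∃ (P : Type) (_ : Preorder P) (w : Cardinal.{0}), Setting P w κ ∧
        Decides b (RelationR P κ.ord.ToType (Order.succ κ).ord.ToType w.ord.ToType) := by
  cases b
  · refine ⟨?_, fun κ h0 h1 => ?_⟩
    · have h0 : ℵ₀ < ⨆ n : ℕ, (ℵ_ n : Cardinal.{0}) := by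
        simpa using lt_sup aleph_mono 0
      obtain ⟨P, i, hne, h2⟩ := forcedR hG _ h0 (cof_sup aleph_mono)
      refine ⟨P, i, fun n => ℵ_ n, alephs_of_pres fun p => (h2 p).1, ?_, fun p => ?_⟩
      · simpa using setting_of_pres hne h0 (cof_sup aleph_mono) fun p => ⟨(h2 p).1, (h2 p).2.1⟩
      · have h3 := (h2 p).2.2
        rw [← Nat.cast_one (R := Ordinal.{0})] at h3
        exact h3
    · obtain ⟨P, i, hne, h2⟩ := forcedR hG _ (h.1.trans h0) h1
      exact ⟨P, i, _, setting_of_pres hne (h.1.trans h0) h1 fun p => ⟨(h2 p).1, (h2 p).2.1⟩,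
        fun p => (h2 p).2.2⟩
  · refine ⟨positive_omega hG h, fun κ h0 h1 => ?_⟩
    obtain ⟨P, i, w, h2, _, h3, _⟩ := positive hG h h0 h1
    exact ⟨P, i, w, h2, h3⟩

theorem mainS (hG : ∀ ν : Cardinal.{0}, ℵ₀ ≤ ν → 2 ^ ν = Order.succ ν) (κ₀ : Cardinal.{0})
    (h : IsSupercompact κ₀) (b : Bool) :
    (∃ (P : Type) (_ : Preorder P) (a : ℕ → Cardinal.{0}), Alephs P a ∧
      Setting P (a 1) (⨆ n, a n) ∧ Decides b (RelationS P (Order.succ (⨆ n, a n)).ord.ToType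
        (⨆ n, a n).ord.ToType (a 1).ord.ToType)) ∧
    ∀ κ : Cardinal.{0}, κ₀ < κ → κ.ord.cof = ℵ₀ →
      ∃ (P : Type) (_ : Preorder P) (w : Cardinal.{0}), Setting P w κ ∧
        Decides b (RelationS P (Order.succ κ).ord.ToType κ.ord.ToType w.ord.ToType) := by
  have hle : ∀ κ : Cardinal.{0}, #κ.ord.ToType ≤ #(Order.succ κ).ord.ToType := fun κ => by
    simpa using Order.le_succ κ
  cases b
  · refine ⟨?_, fun κ h0 h1 => ?_⟩
    · have h0 : ℵ₀ < ⨆ n : ℕ, (ℵ_ n : Cardinal.{0}) := by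
        simpa using lt_sup aleph_mono 0
      obtain ⟨P, i, hne, h2⟩ := forcedS hG _ h0 (cof_sup aleph_mono)
      refine ⟨P, i, fun n => ℵ_ n, alephs_of_pres fun p => (h2 p).1, ?_, fun p => ?_⟩
      · simpa using setting_of_pres hne h0 (cof_sup aleph_mono) fun p => ⟨(h2 p).1, (h2 p).2.1⟩
      · have h3 := (h2 p).2.2
        rw [← Nat.cast_one (R := Ordinal.{0})] at h3
        exact h3
    · obtain ⟨P, i, hne, h2⟩ := forcedS hG _ (h.1.trans h0) h1
      exact ⟨P, i, _, setting_of_pres hne (h.1.trans h0) h1 fun p => ⟨(h2 p).1, (h2 p).2.1⟩,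
        fun p => (h2 p).2.2⟩
  · refine ⟨?_, fun κ h0 h1 => ?_⟩
    · obtain ⟨P, i, a, h1, h2, h3⟩ := positive_omega hG h
      exact ⟨P, i, a, h1, h2, fun p => relS_of_relR (hle _) (h3 p)⟩
    · obtain ⟨P, i, w, h2, _, h3, _⟩ := positive hG h h0 h1
      exact ⟨P, i, w, h2, fun p => relS_of_relR (hle _) (h3 p)⟩

end Pool.Agent.H605Z.Pol
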