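import Pool.Agent.Helper980.Polar.Gch

set_option autoImplicit false

/-!
# General lemmas on the forcing language
-/

namespace Pool.Agent.H605Z.Pol

open Cardinal Set Pool.Agent.Helper669.Forcing Pool.Agent.Helper669.K Pool.Agent.Helper980.G

theorem baire {S : Type} [Preorder S] {μ : Cardinal.{0}} (hμ : ℵ₀ ≤ μ)
    (hch : ∀ C : Set S, IsChain (· ≤ ·) C → #C ≤ μ → C.Nonempty → ∃ u, ∀ c ∈ C, c ≤ u)
    {ι : Type} (hι : #ι ≤ μ) (E : ι → Set S) (hup : ∀ i, ∀ a ∈ E i, ∀ b, a ≤ b → b ∈ E i)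
    (hd : ∀ i a, ∃ b, a ≤ b ∧ b ∈ E i) (s : S) : ∃ t, s ≤ t ∧ ∀ i, t ∈ E i := by
  classical
  obtain ⟨lo, wf⟩ := exists_wellFoundedLT (α := ι)
  let step : ∀ i : ι, (∀ j, j < i → S) → S := fun i g =>
    if h : ∃ b, s ≤ b ∧ (∀ j hj, g j hj ≤ b) ∧ b ∈ E i then h.choose else s
  let f : ι → S := wf.wf.fix step
  have hf : ∀ i, f i = step i (fun j _ => f j) := fun i => wf.wf.fix_eq step i
  have hcard : ∀ T : Set ι, #(insert s (f '' T) : Set S) ≤ μ := by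
    intro T
    refine mk_insert_le.trans (add_le_of_le hμ ?_ (one_le_aleph0.trans hμ))
    exact mk_image_le.trans ((mk_set_le T).trans hι)
  have hchain : ∀ T : Set ι, (∀ j ∈ T, s ≤ f j ∧ ∀ k < j, f k ≤ f j) →
      IsChain (· ≤ ·) (insert s (f '' T) : Set S) := by
    intro T hT
    rintro x (rfl | ⟨j, hj, rfl⟩) y (rfl | ⟨k, hk, rfl⟩) _
    · exact Or.inl le_rfl
    · exact Or.inl (hT k hk).1
    · exact Or.inr (hT j hj).1
    · rcases lt_trichotomy j k with h | h | h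
      · exact Or.inl ((hT k hk).2 j h)
      · exact Or.inl (by rw [h])
      · exact Or.inr ((hT j hj).2 k h)
  have key : ∀ i, s ≤ f i ∧ (∀ j < i, f j ≤ f i) ∧ f i ∈ E i := by
    intro i
    induction i using wf.wf.induction with
    | _ i ih =>
      obtain ⟨u, hu⟩ := hch _ (hchain (Iio i) fun j hj => ⟨(ih j hj).1, (ih j hj).2.1⟩)
        (hcard _) ⟨s, mem_insert _ _⟩
      obtain ⟨b, hb, hbE⟩ := hd i u
      have h : ∃ b, s ≤ b ∧ (∀ j (_ : j < i), f j ≤ b) ∧ b ∈ E i :=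
        ⟨b, (hu s (mem_insert _ _)).trans hb,
          fun j hj => (hu _ (mem_insert_of_mem _ ⟨j, hj, rfl⟩)).trans hb, hbE⟩
      have h2 : f i = h.choose := by
        rw [hf i]
        exact dif_pos h
      rw [h2]
      exact h.choose_spec
  obtain ⟨u, hu⟩ := hch _ (hchain univ fun j _ => ⟨(key j).1, (key j).2.1⟩) (hcard _)
    ⟨s, mem_insert _ _⟩
  exact ⟨u, hu s (mem_insert _ _), fun i => hup i _ (key i).2.2 _
    (hu _ (mem_insert_of_mem _ ⟨i, mem_univ _, rfl⟩))⟩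

theorem sdr {J X : Type} (lv : J → ℕ) (T : J → Set X) (θ : ℕ → Cardinal.{0})
    (h1 : ∀ n, #{j | lv j ≤ n} ≤ θ n) (h2 : ∀ j, θ (lv j) < #(T j)) :
    ∃ g : J → X, Function.Injective g ∧ ∀ j, g j ∈ T j := by
  classical
  obtain ⟨lo, wf⟩ := exists_wellFoundedLT (α := J)
  let r : J → J → Prop := fun a b => lv a < lv b ∨ (lv a = lv b ∧ a < b)
  have hr : WellFounded r := by
    have h : WellFounded (Prod.Lex (fun a b : ℕ => a < b) (fun a b : J => a < b)) :=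
      WellFounded.prod_lex wellFounded_lt wf.wf
    refine Subrelation.wf (r := InvImage _ (fun a : J => (lv a, a))) ?_ (InvImage.wf _ h)
    intro a b hab
    rcases hab with h | ⟨h, h'⟩
    · exact Prod.Lex.left _ _ h
    · show Prod.Lex _ _ (lv a, a) (lv b, b)
      rw [h]
      exact Prod.Lex.right _ h'
  have hne : ∀ j, (T j).Nonempty := fun j => by
    have := (zero_le.trans_lt (h2 j))
    exact Set.nonempty_coe_sort.1 (mk_ne_zero_iff.1 this.ne')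
  let step : ∀ j : J, (∀ k, r k j → X) → X := fun j g =>
    if h : ∃ x ∈ T j, ∀ k hk, g k hk ≠ x then h.choose else (hne j).choose
  let f : J → X := hr.fix step
  have hf : ∀ j, f j = step j (fun k _ => f k) := fun j => hr.fix_eq step j
  have key : ∀ j, f j ∈ T j ∧ ∀ k, r k j → f k ≠ f j := by
    intro j
    have h : ∃ x ∈ T j, ∀ k (_ : r k j), f k ≠ x := by
      by_contra hc
      push Not at hc
      have h3 : T j ⊆ f '' {k | lv k ≤ lv j} := by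
        intro x hx
        obtain ⟨k, hk, h4⟩ := hc x hx
        refine ⟨k, ?_, h4⟩
        rcases hk with h | h
        · exact h.le
        · exact h.1.le
      exact absurd ((mk_le_mk_of_subset h3).trans (mk_image_le.trans (h1 _))) (not_le.2 (h2 j))
    have h2 : f j = h.choose := by
      rw [hf j]
      exact dif_pos h
    rw [h2]
    exact h.choose_spec
  refine ⟨f, fun a b hab => ?_, fun j => (key j).1⟩
  by_contra hne
  have : r a b ∨ r b a := by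
    rcases lt_trichotomy (lv a) (lv b) with h | h | h
    · exact Or.inl (Or.inl h)
    · rcases lt_or_gt_of_ne hne with h' | h'
      · exact Or.inl (Or.inr ⟨h, h'⟩)
      · exact Or.inr (Or.inr ⟨h.symm, h'⟩)
    · exact Or.inr (Or.inl h)
  rcases this with h | h
  · exact (key b).2 a h hab
  · exact (key a).2 b h hab.symm

theorem pigeon {S W : Type} {κ : Cardinal.{0}} (hκ : ℵ₀ ≤ κ) (Y : Set S) (hY : κ < #Y)
    (f : S → W) (hW : #W ≤ κ) : ∃ w, κ < #{y | y ∈ Y ∧ f y = w} := by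
  by_contra hc
  push Not at hc
  have h1 : Y ⊆ ⋃ w, {y | y ∈ Y ∧ f y = w} := fun y hy => mem_iUnion.2 ⟨f y, hy, rfl⟩
  have h2 := (mk_le_mk_of_subset h1).trans (mk_iUnion_le_sum_mk.trans (sum_le_mk_mul_iSup _))
  have h3 : ⨆ w, #{y | y ∈ Y ∧ f y = w} ≤ κ := ciSup_le' hc
  exact absurd (h2.trans (mul_le_of_le hκ hW h3)) (not_le.2 hY)

theorem union_le {ι X : Type} {κ : Cardinal.{0}} (hκ : ℵ₀ ≤ κ) (hι : #ι ≤ κ) (A : ι → Set X)
    (hA : ∀ i, #(A i) ≤ κ) : #(⋃ i, A i) ≤ κ :=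
  (mk_iUnion_le_sum_mk.trans (sum_le_mk_mul_iSup _)).trans (mul_le_of_le hκ hι (ciSup_le' hA))

section

variable {P : Type} [Preorder P]

theorem two_meets {N N' : Set P} (hN : Down N) (hN' : Down N') {p : P} (h : p ∈ meets N)
    (h' : p ∈ meets N') : ∃ q ≤ p, q ∈ N ∧ q ∈ N' := by
  obtain ⟨q, hq, h1⟩ := exists_of_meets hN h
  obtain ⟨r, hr, h2⟩ := exists_of_meets hN' (down_meets _ _ h' _ hq)
  exact ⟨r, hr.trans hq, hN _ h1 _ hr, h2⟩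

theorem sizeLe_of_onto {X Y : Type} (F : X → Y → Set P) {p : P}
    (hf : ∀ q ≤ p, ∀ x y y', q ∈ meets (F x y) → q ∈ meets (F x y') → y = y')
    (ho : ∀ q ≤ p, ∀ y, ∃ r ≤ q, ∃ x, r ∈ meets (F x y)) : p ∈ SizeLe P Y X := by
  classical
  obtain ⟨lo, wf⟩ := exists_wellFoundedLT (α := X)
  let R : Y → X → Set P := fun y x =>
    {q | q ∈ meets (F x y) ∧ ∀ x' < x, q ∈ fnot (meets (F x' y))}
  have hR : ∀ y x, Down (R y x) := fun y x q hq r hr =>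
    ⟨down_meets _ _ hq.1 _ hr, fun x' hx' => down_fnot _ _ (hq.2 x' hx') _ hr⟩
  refine mem_fex.2 fun q hq => ⟨q, le_rfl, R, ⟨fun y => mem_fex.2 fun r hr => ?_,
    fun y x x' => mem_fimp.2 fun r hr h => ⟨r, le_rfl, ?_⟩⟩,
    fun y y' x => mem_fimp.2 fun r hr h => ⟨r, le_rfl, ?_⟩⟩
  · have hne : {x | ∃ s ≤ r, s ∈ meets (F x y)}.Nonempty := by
      obtain ⟨s, hs, x, hx⟩ := ho r (hr.trans hq) y
      exact ⟨x, s, hs, hx⟩
    obtain ⟨x, ⟨s, hs, hx⟩, hmin⟩ := wf.wf.has_min _ hne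
    exact ⟨s, hs, x, meets_of_mem ⟨hx, fun x' hx' t ht h => hmin x' ⟨t, ht.trans hs, h⟩ hx'⟩⟩
  · obtain ⟨s, _, h1, h2⟩ := two_meets (hR y x) (hR y x') h.1 h.2
    show x = x'
    rcases lt_trichotomy x x' with h3 | h3 | h3
    · exact (h2.2 x h3 s le_rfl h1.1).elim
    · exact h3
    · exact (h1.2 x' h3 s le_rfl h2.1).elim
  · obtain ⟨s, hs, h1, h2⟩ := two_meets (hR y x) (hR y' x) h.1 h.2
    exact hf s (hs.trans (hr.trans hq)) x y y' h1.1 h2.1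

theorem sizeLe_trans {X Y Z : Type} {p : P} (h : p ∈ SizeLe P Z Y) (h' : p ∈ SizeLe P Y X) :
    p ∈ SizeLe P Z X := by
  refine mem_fex.2 fun q hq => ?_
  obtain ⟨r, hr, R, hR1, hR2⟩ := mem_fex.1 h q hq
  obtain ⟨s, hs, Q, hQ1, hQ2⟩ := mem_fex.1 h' r (hr.trans hq)
  have hR1' := down_IsFun _ _ hR1 _ hs
  have hR2' := down_IsInj _ _ hR2 _ hs
  let T : Z → X → Set P := fun z x => {t | ∃ y, t ∈ meets (R z y) ∧ t ∈ meets (Q y x)}
  have hT : ∀ z x, Down (T z x) := fun z x t ⟨y, h1, h2⟩ u hu =>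
    ⟨y, down_meets _ _ h1 _ hu, down_meets _ _ h2 _ hu⟩
  refine ⟨s, hs.trans hr, T, ⟨fun z => mem_fex.2 fun t ht => ?_,
    fun z x x' => mem_fimp.2 fun t ht h => ⟨t, le_rfl, ?_⟩⟩,
    fun z z' x => mem_fimp.2 fun t ht h => ⟨t, le_rfl, ?_⟩⟩
  · obtain ⟨u, hu, y, hy⟩ := IsFun.total (down_IsFun _ _ hR1' _ ht) z
    obtain ⟨v, hv, x, hx⟩ := IsFun.total (down_IsFun _ _ hQ1 _ (hu.trans ht)) y
    exact ⟨v, hv.trans hu, x, meets_of_mem ⟨y, down_meets _ _ hy _ hv, hx⟩⟩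
  · obtain ⟨u, hu, ⟨y, h1, h2⟩, ⟨y', h3, h4⟩⟩ := two_meets (hT z x) (hT z x') h.1 h.2
    have h5 : y = y' := IsFun.unique (down_IsFun _ _ hR1' _ (hu.trans ht)) h1 h3
    subst h5
    exact IsFun.unique (down_IsFun _ _ hQ1 _ (hu.trans ht)) h2 h4
  · obtain ⟨u, hu, ⟨y, h1, h2⟩, ⟨y', h3, h4⟩⟩ := two_meets (hT z x) (hT z' x) h.1 h.2
    have h5 : y = y' := IsInj.eq (down_IsInj _ _ hQ2 _ (hu.trans ht)) h2 h4
    subst h5
    exact IsInj.eq (down_IsInj _ _ hR2' _ (hu.trans ht)) h1 h3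

theorem powerLe_triv {X Y : Type} (h : #(X → Set P) ≤ #Y) (p : P) : p ∈ PowerLe P X Y := by
  obtain ⟨j⟩ := h
  refine mem_fex.2 fun q _ => ⟨q, le_rfl, Function.invFun j, fun A => ?_⟩
  refine mem_fex.2 fun r _ => ⟨r, le_rfl, j A, fun x => ?_⟩
  rw [Function.leftInverse_invFun j.injective A]
  exact fiff_self r

theorem notSizeLe_big {X Y : Type} (h : #P * #X < #Y) (p : P) : p ∈ fnot (SizeLe P Y X) := by
  intro q _ hq
  obtain ⟨r, _, R, hR1, hR2⟩ := mem_fex.1 hq q le_rfl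
  have h1 : ∀ y, ∃ z : P × X, z.1 ≤ r ∧ z.1 ∈ meets (R y z.2) := fun y => by
    obtain ⟨s, hs, x, hx⟩ := IsFun.total hR1 y
    exact ⟨(s, x), hs, hx⟩
  choose g hg using h1
  have hinj : Function.Injective g := by
    intro y y' hyy
    refine IsInj.eq (down_IsInj _ _ hR2 _ (hg y).1) (hg y).2 ?_
    rw [hyy]
    exact (hg y').2
  have := mk_le_of_injective hinj
  rw [mk_prod, lift_id, lift_id] at this
  exact absurd this (not_le.2 h)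

theorem atLeast_ground {I X : Type} (Y : Set X) (h : #I ≤ #Y) (p : P) :
    p ∈ AtLeast I (fun y => fground (P := P) (y ∈ Y)) := by
  obtain ⟨f⟩ := h
  have hm : ∀ (h : Prop) (r : P), r ∈ meets (fground (P := P) h) → h := fun h r hr => by
    obtain ⟨_, _, _, h1, _⟩ := hr r le_rfl
    exact h1
  refine mem_fex.2 fun q _ => ⟨q, le_rfl, fun i x => fground ((f i : X) = x),
    ⟨fun i => mem_fex.2 fun r _ => ⟨r, le_rfl, f i, meets_of_mem rfl⟩,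
      fun i x x' => mem_fimp.2 fun r _ hr => ⟨r, le_rfl, ?_⟩⟩,
    fun i i' x => mem_fimp.2 fun r _ hr => ⟨r, le_rfl, ?_⟩,
    fun i x => mem_fimp.2 fun r _ hr => ⟨r, le_rfl, meets_of_mem ?_⟩⟩
  · exact (hm _ _ hr.1).symm.trans (hm _ _ hr.2)
  · exact f.injective (Subtype.ext ((hm _ _ hr.1).trans (hm _ _ hr.2).symm))
  · show x ∈ Y
    rw [← hm _ _ hr]
    exact (f i).2

/-- the image of a named set under a ground model map -/
def nImg {X Y : Type} (e : X → Y) (A : X → Set P) : Y → Set P :=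
  fun y => {p | ∃ x, e x = y ∧ p ∈ meets (A x)}

theorem down_nImg {X Y : Type} (e : X → Y) (A : X → Set P) (y : Y) : Down (nImg e A y) :=
  fun _ ⟨x, h1, h2⟩ _ hq => ⟨x, h1, down_meets _ _ h2 _ hq⟩

theorem atLeast_map {I X Y : Type} {e : X → Y} (he : Function.Injective e) {A : X → Set P}
    {p : P} (h : p ∈ AtLeast I A) : p ∈ AtLeast I (nImg e A) := by
  refine mem_fex.2 fun q hq => ?_
  obtain ⟨r, hr, R, hR1, hR2, hR3⟩ := mem_fex.1 h q hq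
  refine ⟨r, hr, fun i => nImg e (R i), ⟨fun i => mem_fex.2 fun t ht => ?_,
    fun i y y' => mem_fimp.2 fun t ht h => ⟨t, le_rfl, ?_⟩⟩,
    fun i i' y => mem_fimp.2 fun t ht h => ⟨t, le_rfl, ?_⟩,
    fun i y => mem_fimp.2 fun t ht h => ?_⟩
  · obtain ⟨u, hu, x, hx⟩ := IsFun.total (down_IsFun _ _ hR1 _ ht) i
    exact ⟨u, hu, e x, meets_of_mem ⟨x, rfl, hx⟩⟩
  · obtain ⟨u, hu, ⟨x, h1, h2⟩, ⟨x', h3, h4⟩⟩ :=
      two_meets (down_nImg _ _ _) (down_nImg _ _ _) h.1 h.2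
    have h5 : x = x' := IsFun.unique (down_IsFun _ _ hR1 _ (hu.trans ht)) h2 h4
    show y = y'
    rw [← h1, ← h3, h5]
  · obtain ⟨u, hu, ⟨x, h1, h2⟩, ⟨x', h3, h4⟩⟩ :=
      two_meets (down_nImg _ _ _) (down_nImg _ _ _) h.1 h.2
    have h5 : x = x' := he (h1.trans h3.symm)
    subst h5
    exact IsInj.eq (down_IsInj _ _ hR2 _ (hu.trans ht)) h2 h4
  · obtain ⟨u, hu, x, h1, h2⟩ := exists_of_meets (down_nImg _ _ _) h
    obtain ⟨v, hv, h3⟩ := mem_fimp.1 (hR3 i x) u (hu.trans ht) h2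
    exact ⟨v, hv.trans hu, meets_of_mem ⟨x, h1, h3⟩⟩

end

/-- `K` is the increasing union of countably many sets of smaller size, its size is a limit
cardinal -/
structure Sing (K : Type) (lv : K → ℕ) (k : ℕ → Cardinal.{0}) : Prop where
  inf : ∀ n, ℵ₀ ≤ k n
  mono : Monotone k
  lt : ∀ n, k n < #K
  cof : ∀ θ < #K, ∃ n, θ ≤ k n
  le : ∀ n, #{x | lv x ≤ n} ≤ k n
  lim : ∀ θ < #K, Order.succ θ < #K

section

variable {P : Type} [Preorder P]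

theorem atl {K : Type} {lv : K → ℕ} {k : ℕ → Cardinal.{0}} (hK : Sing K lv k) (hP : #P < #K)
    (A : K → Set P) {p : P}
    (h : ∀ q ≤ p, ∀ θ < #K, ∃ r ≤ q, θ ≤ #{x | r ∈ meets (A x)}) : p ∈ AtLeast K A := by
  classical
  let θ : ℕ → Cardinal.{0} := fun n => max (#P) (k n)
  have hθ : ∀ n, θ n < #K := fun n => max_lt hP (hK.lt n)
  have hθ0 : ∀ n, ℵ₀ ≤ θ n := fun n => (hK.inf n).trans (le_max_right _ _)
  let D : ℕ → Set P := fun n => {r | r ≤ p ∧ θ n < #{x | r ∈ meets (A x)}}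
  have hZ := fun n => exists_antichain (D n)
  choose Z hZ1 hZ2 hZ3 using hZ
  let J : Type := {z : K × P // z.2 ∈ Z (lv z.1)}
  obtain ⟨g, hg1, hg2⟩ := sdr (J := J) (fun j => lv j.1.1) (fun j => {x | j.1.2 ∈ meets (A x)}) θ
    (by
      intro n
      have h1 : #{j : J | lv j.1.1 ≤ n} ≤ #({x | lv x ≤ n} × P) := by
        refine mk_le_of_injective (f := fun j => (⟨j.1.1.1, j.2⟩, j.1.1.2)) ?_
        intro a b hab
        simp only [Prod.mk.injEq, Subtype.mk.injEq] at hab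
        exact Subtype.ext (Subtype.ext (Prod.ext hab.1 hab.2))
      rw [mk_prod, lift_id, lift_id] at h1
      exact h1.trans (mul_le_of_le (hθ0 n) ((hK.le n).trans (le_max_right _ _)) (le_max_left _ _)))
    (fun j => (hZ1 _ j.2).2)
  let R : K → K → Set P := fun a x => {r | ∃ h : r ∈ Z (lv a), g ⟨(a, r), h⟩ = x}
  have hm : ∀ a x t, t ∈ meets (R a x) → ∃ u ≤ t, ∃ r, ∃ h : r ∈ Z (lv a), u ≤ r ∧
      g ⟨(a, r), h⟩ = x := by
    intro a x t ht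
    obtain ⟨u, hu, r, ⟨h1, h2⟩, h3⟩ := ht t le_rfl
    exact ⟨u, hu, r, h1, h3, h2⟩
  refine mem_fex.2 fun q hq => ⟨q, le_rfl, R, ⟨fun a => mem_fex.2 fun t ht => ?_,
    fun a x x' => mem_fimp.2 fun t ht h => ⟨t, le_rfl, ?_⟩⟩,
    fun a a' x => mem_fimp.2 fun t ht h => ⟨t, le_rfl, ?_⟩,
    fun a x => mem_fimp.2 fun t ht h => ?_⟩
  · obtain ⟨r, hr, h1⟩ := h t (ht.trans hq) _ (hK.lim _ (hθ (lv a)))
    obtain ⟨z, hz, u, hu, huz⟩ := hZ3 (lv a) r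
      ⟨hr.trans (ht.trans hq), (Order.lt_succ _).trans_le h1⟩
    exact ⟨u, hu.trans hr, g ⟨(a, z), hz⟩, meets_of_le (s := z) ⟨hz, rfl⟩ huz⟩
  · obtain ⟨u, hu, r, h1, h2, h3⟩ := hm _ _ _ h.1
    obtain ⟨v, hv, r', h4, h5, h6⟩ := hm _ _ _ (down_meets _ _ h.2 _ hu)
    have h7 : r = r' := by
      by_contra hne
      exact hZ2 _ r h1 r' h4 hne ⟨v, hv.trans h2, h5⟩
    subst h7
    exact h3.symm.trans h6
  · obtain ⟨u, _, r, h1, _, h3⟩ := hm _ _ _ h.1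
    obtain ⟨v, _, r', h4, _, h6⟩ := hm _ _ _ h.2
    have := hg1 (h3.trans h6.symm)
    exact congrArg (fun j : J => j.1.1) this
  · obtain ⟨u, hu, r, h1, h2, h3⟩ := hm _ _ _ h
    have h4 : r ∈ meets (A (g ⟨(a, r), h1⟩)) := hg2 ⟨(a, r), h1⟩
    rw [h3] at h4
    exact ⟨u, hu, down_meets _ _ h4 _ h2⟩

/-- a covering property -/
def Cov (P : Type) [Preorder P] (μ : Cardinal.{0}) : Prop :=
  ∀ (p : P) (ι : Type), #ι ≤ μ → ∀ D : ι → Set P, ∃ p' ≤ p, ∃ W : ι → Set P,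
    (∀ i, W i ⊆ D i ∧ #(W i) ≤ μ) ∧ ∀ i, ∀ q ≤ p', q ∈ D i → ∃ w ∈ W i, ∃ t, t ≤ q ∧ t ≤ w

theorem Cov.vals {μ : Cardinal.{0}} (hμ : ℵ₀ ≤ μ) (hc : Cov P μ) (p : P) {ι Y : Type}
    (hι : #ι ≤ μ) (R : ι → Y → Set P) (hR : ∀ i y, Down (R i y)) :
    ∃ p' ≤ p, ∃ V : Set Y, #V ≤ μ ∧
      ∀ i y, ∀ q ≤ p', q ∈ R i y → ∃ t ≤ q, ∃ y' ∈ V, t ∈ R i y' := by
  classical
  obtain ⟨p', hp', W, hW, hW'⟩ := hc p ι hι (fun i => {q | ∃ y, q ∈ R i y})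
  have h1 : ∀ i (w : W i), ∃ y, (w : P) ∈ R i y := fun i w => (hW i).1 w.2
  choose v hv using h1
  refine ⟨p', hp', ⋃ i, range (v i), union_le hμ hι _ fun i => mk_range_le.trans (hW i).2, ?_⟩
  intro i y q hq hy
  obtain ⟨w, hw, t, ht, htw⟩ := hW' i q hq ⟨y, hy⟩
  exact ⟨t, ht, v i ⟨w, hw⟩, mem_iUnion.2 ⟨i, _, rfl⟩, hR _ _ _ (hv i ⟨w, hw⟩) _ htw⟩

theorem Cov.notSizeLe {μ : Cardinal.{0}} (hμ : ℵ₀ ≤ μ) (hc : Cov P μ) {X Y : Type}
    (hX : #X ≤ μ) (hY : μ < #Y) (p : P) : p ∈ fnot (SizeLe P Y X) := by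
  intro q _ hq
  obtain ⟨r, _, R, hR1, hR2⟩ := mem_fex.1 hq q le_rfl
  obtain ⟨r', hr', V, hV, hV'⟩ := hc.vals hμ r hX (fun x y => meets (R y x))
    (fun _ _ => down_meets _)
  have : ∃ y, y ∉ V := by
    by_contra h
    push Not at h
    have : V = Set.univ := eq_univ_of_forall h
    rw [this, mk_univ] at hV
    exact absurd hV (not_le.2 hY)
  obtain ⟨y, hy⟩ := this
  obtain ⟨u, hu, x, hx⟩ := IsFun.total (down_IsFun _ _ hR1 _ hr') y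
  obtain ⟨t, ht, y', hy', h1⟩ := hV' x y u hu hx
  have h2 : y = y' := IsInj.eq (down_IsInj _ _ hR2 _ (ht.trans (hu.trans hr')))
    (down_meets _ _ hx _ ht) h1
  exact hy (h2 ▸ hy')

theorem Cov.unb {μ : Cardinal.{0}} (hμ : ℵ₀ ≤ μ) (hc : Cov P μ) {L : Type} [LinearOrder L]
    [wf : WellFoundedLT L] (hIio : ∀ a : L, #(Iio a) ≤ μ)
    (hbd : ∀ V : Set L, #V ≤ μ → ∃ b, ∀ a ∈ V, a < b) (N : L → Set P) {p : P}
    (h : ∀ q ≤ p, ∀ γ, ∃ r ≤ q, ∃ β, γ ≤ β ∧ r ∈ meets (N β)) : p ∈ AtLeast L N := by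
  classical
  let step : ∀ ξ : L, (∀ ζ, ζ < ξ → L → Set P) → L → Set P := fun ξ g β =>
    {q | (q ∈ meets (N β) ∧ ∀ ζ hζ, q ∈ fnot (meets (g ζ hζ β))) ∧
      ∀ β' < β, q ∈ fnot {q | q ∈ meets (N β') ∧ ∀ ζ hζ, q ∈ fnot (meets (g ζ hζ β'))}}
  let R : L → L → Set P := wf.wf.fix step
  have hR : ∀ ξ, R ξ = step ξ (fun ζ _ => R ζ) := fun ξ => wf.wf.fix_eq step ξ
  let Fr : L → L → Set P := fun ξ β =>
    {q | q ∈ meets (N β) ∧ ∀ ζ < ξ, q ∈ fnot (meets (R ζ β))}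
  have hR' : ∀ ξ β q, q ∈ R ξ β ↔ q ∈ Fr ξ β ∧ ∀ β' < β, q ∈ fnot (Fr ξ β') := by
    intro ξ β q
    rw [hR ξ]
    rfl
  have hFr : ∀ ξ β, Down (Fr ξ β) := fun ξ β q hq r hr =>
    ⟨down_meets _ _ hq.1 _ hr, fun ζ hζ => down_fnot _ _ (hq.2 ζ hζ) _ hr⟩
  have hRd : ∀ ξ β, Down (R ξ β) := fun ξ β q hq r hr =>
    (hR' _ _ _).2 ⟨hFr _ _ _ ((hR' _ _ _).1 hq).1 _ hr,
      fun β' hβ' => down_fnot _ _ (((hR' _ _ _).1 hq).2 β' hβ') _ hr⟩
  have hfun : ∀ ξ β β' t, t ∈ meets (R ξ β) → t ∈ meets (R ξ β') → β = β' := by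
    intro ξ β β' t h1 h2
    obtain ⟨s, _, h3, h4⟩ := two_meets (hRd ξ β) (hRd ξ β') h1 h2
    rw [hR'] at h3 h4
    rcases lt_trichotomy β β' with h5 | h5 | h5
    · exact (h4.2 β h5 s le_rfl h3.1).elim
    · exact h5
    · exact (h3.2 β' h5 s le_rfl h4.1).elim
  refine mem_fex.2 fun q hq => ⟨q, le_rfl, R, ⟨fun ξ => mem_fex.2 fun t ht => ?_,
    fun ξ x x' => mem_fimp.2 fun t ht h => ⟨t, le_rfl, hfun _ _ _ _ h.1 h.2⟩⟩,
    fun ξ ξ' x => mem_fimp.2 fun t ht h => ⟨t, le_rfl, ?_⟩,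
    fun ξ x => mem_fimp.2 fun t ht h => ?_⟩
  · obtain ⟨t', ht', V, hV, hV'⟩ := hc.vals hμ t (hIio ξ) (fun ζ β => meets (R ζ.1 β))
      (fun _ _ => down_meets _)
    obtain ⟨γ, hγ⟩ := hbd V hV
    obtain ⟨r, hr, β, hβ, h1⟩ := h t' (ht'.trans (ht.trans hq)) γ
    have hne : {β | ∃ s ≤ t, s ∈ Fr ξ β}.Nonempty := by
      refine ⟨β, r, hr.trans ht', h1, fun ζ hζ u hu h2 => ?_⟩
      obtain ⟨v, hv, β', hβ', h3⟩ := hV' ⟨ζ, hζ⟩ β u (hu.trans hr) h2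
      have h4 : β = β' := hfun ζ β β' v (down_meets _ _ h2 _ hv) h3
      exact absurd (hγ β' hβ') (not_lt.2 (h4 ▸ hβ))
    obtain ⟨x, ⟨s, hs, hx⟩, hmin⟩ := wf.wf.has_min _ hne
    exact ⟨s, hs, x, meets_of_mem ((hR' _ _ _).2
      ⟨hx, fun x' hx' u hu h => hmin x' ⟨u, hu.trans hs, h⟩ hx'⟩)⟩
  · obtain ⟨s, _, h3, h4⟩ := two_meets (hRd ξ x) (hRd ξ' x) h.1 h.2
    show ξ = ξ'
    rcases lt_trichotomy ξ ξ' with h5 | h5 | h5
    · exact (((hR' _ _ _).1 h4).1.2 ξ h5 s le_rfl (meets_of_mem h3)).elim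
    · exact h5
    · exact (((hR' _ _ _).1 h3).1.2 ξ' h5 s le_rfl (meets_of_mem h4)).elim
  · obtain ⟨u, hu, h1⟩ := exists_of_meets (hRd ξ x) h
    exact ⟨u, hu, ((hR' _ _ _).1 h1).1.1⟩

end

end Pool.Agent.H605Z.Pol
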