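import Pool.Agent.H605Z.Pol.Cond

set_option autoImplicit false

/-!
# What the forcing notion forces
-/

namespace Pool.Agent.H605Z.Pol

open Cardinal Set Pool.Agent.Helper669.Forcing Pool.Agent.Helper669.K Pool.Agent.Helper980.G

theorem fex_of_dense {P : Type} [Preorder P] {ι : Type} {φ : ι → Set P} {p : P}
    (h : ∀ q ≤ p, ∃ r ≤ q, r ∈ fex φ) : p ∈ fex φ := by
  refine mem_fex.2 fun q hq => ?_
  obtain ⟨r, hr, h1⟩ := h q hq
  obtain ⟨s, hs, h2⟩ := mem_fex.1 h1 r le_rfl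
  exact ⟨s, hs.trans hr, h2⟩

theorem cover {X m : Type} [Nonempty X] (s : Set X) (h : #s ≤ #m) :
    ∃ f : m → X, s ⊆ range f := by
  classical
  obtain ⟨j⟩ := h
  refine ⟨fun a => if h : ∃ x, j x = a then h.choose.1 else Classical.arbitrary X, fun x hx => ?_⟩
  have h : ∃ y, j y = j ⟨x, hx⟩ := ⟨_, rfl⟩
  refine ⟨j ⟨x, hx⟩, ?_⟩
  simp only [dif_pos h]
  rw [j.injective h.choose_spec]

variable {L M E : Type} [LinearOrder L] {μ : Cardinal.{0}}

theorem Stg.gt (hL : Stg L μ) (a b : L) : ∃ c, a < c ∧ b < c := by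
  obtain ⟨c, hc⟩ := hL.bd {a, b} ((Set.toFinite _).lt_aleph0.le.trans hL.inf)
  exact ⟨c, hc a (by simp), hc b (by simp)⟩

theorem longer [Nonempty M] (hL : Stg L μ) (p : Cond L M E) (e : E) (γ : L) :
    ∃ p' ≤ p, p.s.α < p'.s.α ∧ γ < p'.s.α ∧ p'.s.σ p.s.α = (fun _ _ _ => Set.univ) ∧
      p'.s.c p.s.α = e := by
  obtain ⟨α', h1, h2⟩ := hL.gt p.s.α γ
  obtain ⟨s', h3, h4, h5, h6⟩ := extend p.s (fun _ _ _ => Set.univ) e
    (fun _ _ _ _ _ _ _ _ _ => trivial)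
    (fun a n r hr => ⟨r, Classical.arbitrary M, hr, Le.refl _ _, fun _ _ => trivial⟩) h1
  exact ⟨⟨s', p.r, p.supp.mono h3.1⟩, ⟨h3, Le.refl _ _⟩, h4 ▸ h1, h4 ▸ h2, h5, h6⟩

theorem down_entry (ξ : L) (n : ℕ) (τ : M) :
    Down {q : Cond L M E | (q.r.f ξ).1[n]? = some τ} := by
  intro q hq r hr
  obtain ⟨t, ht⟩ := (hr.2 ξ).1
  have h1 : (q.r.f ξ).1[n]? = some τ := hq
  show (r.r.f ξ).1[n]? = some τ
  have h2 : n < (q.r.f ξ).1.length := by
    by_contra h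
    rw [List.getElem?_eq_none (not_lt.1 h)] at h1
    cases h1
  rw [← ht, List.getElem?_append_left h2]
  exact h1

theorem collapse_M [Nonempty M] [Nonempty E] (hL : Stg L μ) (p : Cond L M E) :
    p ∈ SizeLe (Cond L M E) M ℕ := by
  refine fex_of_dense fun q _ => ?_
  obtain ⟨r, hr, h1, _, h2, _⟩ := longer hL q (Classical.arbitrary E) q.s.α
  refine ⟨r, hr, sizeLe_of_onto
    (fun n τ => {u : Cond L M E | (u.r.f q.s.α).1[n]? = some τ}) ?_ ?_⟩
  · intro u _ n τ τ' h3 h4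
    obtain ⟨v, _, h5, h6⟩ := two_meets (down_entry _ _ _) (down_entry _ _ _) h3 h4
    have h7 : some τ = some τ' := h5.symm.trans h6
    exact Option.some.inj h7
  · intro u hu τ
    obtain ⟨v, hv, _, h3, _⟩ := stem_step u (h1.trans_le hu.1.1) (supp_res _ _) (Le.refl _ _) τ
      (fun β _ => by rw [(hu.1.2 _ h1).1, h2]; trivial)
    refine ⟨v, hv, (u.r.f q.s.α).1.length, meets_of_mem ?_⟩
    show (v.r.f q.s.α).1[_]? = _
    rw [h3]
    simp

theorem collapse_E [Nonempty M] (hL : Stg L μ) (p : Cond L M E) :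
    p ∈ SizeLe (Cond L M E) E L := by
  have hd : ∀ ξ e, Down {u : Cond L M E | ξ < u.s.α ∧ u.s.c ξ = e} :=
    fun ξ e u hu v hv => ⟨hu.1.trans_le hv.1.1, (hv.1.2 ξ hu.1).2.trans hu.2⟩
  refine sizeLe_of_onto (fun ξ e => {u : Cond L M E | ξ < u.s.α ∧ u.s.c ξ = e}) ?_ ?_
  · intro u _ ξ e e' h3 h4
    obtain ⟨v, _, h5, h6⟩ := two_meets (hd _ _) (hd _ _) h3 h4
    exact h5.2.symm.trans h6.2
  · intro u _ e
    obtain ⟨v, hv, h1, _, _, h2⟩ := longer hL u e u.s.α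
    exact ⟨v, hv, u.s.α, meets_of_mem ⟨h1, h2⟩⟩

theorem mk_FP (hL : ℵ₀ ≤ #L) (hM : #M ≤ #L) : #(FP L M) ≤ #L := by
  classical
  have h1 : #(FP L M) ≤ #(Finset (L × List M × Finset L)) := by
    refine mk_le_of_injective (f := fun r => r.fin.toFinset.image fun ξ => (ξ, r.f ξ)) ?_
    have h2 : ∀ r r' : FP L M, (r.fin.toFinset.image fun ξ => (ξ, r.f ξ)) =
        (r'.fin.toFinset.image fun ξ => (ξ, r'.f ξ)) → ∀ ξ, r.f ξ ≠ ([], ∅) → r.f ξ = r'.f ξ := by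
      intro r r' h ξ hξ
      have h3 : (ξ, r.f ξ) ∈ r.fin.toFinset.image fun ξ => (ξ, r.f ξ) :=
        Finset.mem_image.2 ⟨ξ, by simpa using hξ, rfl⟩
      rw [h] at h3
      obtain ⟨ζ, _, h4⟩ := Finset.mem_image.1 h3
      obtain ⟨h5, h6⟩ := Prod.mk.inj h4
      rw [← h6, h5]
    intro r r' h
    ext1
    funext ξ
    by_cases h3 : r.f ξ = ([], ∅)
    · by_cases h4 : r'.f ξ = ([], ∅)
      · rw [h3, h4]
      · exact (h2 r' r h.symm ξ h4).symm
    · exact h2 r r' h ξ h3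
  refine h1.trans (mk_finset_le hL ?_)
  rw [mk_prod, lift_id, lift_id, mk_prod, lift_id, lift_id]
  exact mul_le_of_le hL le_rfl (mul_le_of_le hL ((mk_list_le_max _).trans (max_le hL hM))
    (mk_finset_le hL le_rfl))

theorem mk_cond (hL : ℵ₀ ≤ #L) (hM : #M ≤ #L) {ν : Cardinal.{0}} (hν : #L ≤ ν)
    (hE : #E ≤ 2 ^ ν) : #(Cond L M E) ≤ 2 ^ ν := by
  have hν0 : ℵ₀ ≤ ν := hL.trans hν
  have h2 : ℵ₀ ≤ 2 ^ ν := hν0.trans (cantor ν).le
  have hpow : ∀ (X Y : Type), #X ≤ ν → #Y ≤ 2 ^ ν → #(X → Y) ≤ 2 ^ ν := by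
    intro X Y hX hY
    rw [← power_def]
    refine (power_le_power_right hY).trans ?_
    rw [← power_mul]
    exact power_le_power_left two_ne_zero (mul_le_of_le hν0 le_rfl hX)
  have h1 : #(Cond L M E) ≤ #(L × Dat L M × (L → E) × FP L M) := by
    refine mk_le_of_injective (f := fun p => (p.s.α, p.s.σ, p.s.c, p.r)) ?_
    rintro ⟨⟨a, b, c, d⟩, e, f⟩ ⟨⟨a', b', c', d'⟩, e', f'⟩ h
    simp only [Prod.mk.injEq] at h
    obtain ⟨rfl, rfl, rfl, rfl⟩ := h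
    rfl
  refine h1.trans ?_
  rw [mk_prod, lift_id, lift_id, mk_prod, lift_id, lift_id, mk_prod, lift_id, lift_id]
  refine mul_le_of_le h2 (hν.trans (cantor ν).le) (mul_le_of_le h2 ?_
    (mul_le_of_le h2 (hpow _ _ hν hE) ((mk_FP hL hM).trans (hν.trans (cantor ν).le))))
  refine hpow _ _ hν (hpow _ _ hν (hpow _ _ (by rw [mk_nat]; exact hν0) (hpow _ _ (hM.trans hν) ?_)))
  rw [mk_set]
  exact power_le_power_left two_ne_zero ((mk_FP hL hM).trans hν)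

theorem forces_ch (hL : Stg L μ) (hM : #M = μ) (hLμ : #L = 2 ^ μ) {X Y : Type} (hX : #X ≤ μ)
    (hY : 2 ^ μ ≤ #Y) (p : Cond L M E) : p ∈ PowerLe (Cond L M E) X Y := by
  have h0 : ℵ₀ ≤ #L := by rw [hLμ]; exact hL.inf.trans (cantor μ).le
  have hZ : #(X → M → Option (FP L M)) ≤ #Y := by
    rw [← power_def, ← power_def, ← power_mul]
    have h1 : #(Option (FP L M)) ≤ 2 ^ μ := by
      rw [mk_option, ← hLμ]
      exact add_le_of_le h0 (mk_FP h0 (by rw [hM, hLμ]; exact (cantor μ).le))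
        (one_le_aleph0.trans h0)
    refine (power_le_power_right h1).trans ?_
    rw [← power_mul]
    exact (power_le_power_left two_ne_zero
      (mul_le_of_le hL.inf le_rfl (mul_le_of_le hL.inf hM.le hX))).trans hY
  obtain ⟨j⟩ := hZ
  let Nm : (X → M → Option (FP L M)) → X → Set (Cond L M E) := fun z x =>
    {q | ∃ m r, z x m = some r ∧ Supp r q.s.α ∧ Le q.s.σ q.r r}
  have hNm : ∀ z x, Down (Nm z x) := by
    rintro z x q ⟨m, r, h1, h2, h3⟩ q' hq'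
    exact ⟨m, r, h1, h2.mono hq'.1.1, Le.trans q'.s.good (h2.mono hq'.1.1) hq'.2
      (h3.congr h2 fun ξ hξ => (hq'.1.2 ξ hξ).1)⟩
  refine mem_fex.2 fun q _ => ⟨q, le_rfl, fun y => Nm (Function.invFun j y), fun A => ?_⟩
  refine mem_fex.2 fun r _ => ?_
  obtain ⟨s', h1, W, h2, h3⟩ := key_lemma hL hM.le hX (fun x => meets (A x)) r.s
  have h4 : ∀ x, ∃ f : M → Option (FP L M), (fun w : Cond L M E => some w.r) '' W x = range f ∨
      (W x = ∅ ∧ f = fun _ => none) := by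
    intro x
    rcases (W x).eq_empty_or_nonempty with h | h
    · exact ⟨fun _ => none, Or.inr ⟨h, rfl⟩⟩
    · have : Nonempty (W x) := h.to_subtype
      obtain ⟨f, hf⟩ := cover (m := M) (Set.univ : Set (W x))
        (by rw [mk_univ, hM]; exact (h2 x).2.1)
      refine ⟨fun m => some (f m).1.r, Or.inl ?_⟩
      ext o
      constructor
      · rintro ⟨w, hw, rfl⟩
        obtain ⟨m, hm⟩ := hf (mem_univ ⟨w, hw⟩)
        exact ⟨m, by simp only [hm]⟩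
      · rintro ⟨m, rfl⟩
        exact ⟨(f m).1, (f m).2, rfl⟩
  choose z hz using h4
  refine ⟨⟨s', r.r, r.supp.mono h1.1⟩, ⟨h1, Le.refl _ _⟩, j z, fun x => ?_⟩
  show _ ∈ fand (fimp (meets (A x)) (meets (Nm (Function.invFun j (j z)) x)))
    (fimp (meets (Nm (Function.invFun j (j z)) x)) (meets (A x)))
  rw [Function.leftInverse_invFun j.injective z]
  refine ⟨mem_fimp.2 fun u hu h => ?_, mem_fimp.2 fun u hu h => ?_⟩
  · obtain ⟨w, hw, v, hv, hvw⟩ := h3 x u hu.1 h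
    refine ⟨v, hv, meets_of_mem ?_⟩
    rcases hz x with h5 | h5
    · have h6 : some w.r ∈ range (z x) := h5 ▸ ⟨w, hw, rfl⟩
      obtain ⟨m, hm⟩ := h6
      exact ⟨m, w.r, hm, w.supp.mono hvw.1.1, hvw.2⟩
    · rw [h5.1] at hw
      exact hw.elim
  · obtain ⟨v, hv, m, r', h5, _, h7⟩ := exists_of_meets (hNm z x) h
    rcases hz x with h8 | h8
    · have h9 : some r' ∈ (fun w : Cond L M E => some w.r) '' W x := h8 ▸ ⟨m, h5⟩
      obtain ⟨w, hw, h10⟩ := h9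
      have h11 : w.r = r' := Option.some.inj h10
      have h12 : v ≤ w := ⟨((h2 x).2.2 w hw).trans (hu.1.trans hv.1), by rw [h11]; exact h7⟩
      exact ⟨v, hv, down_meets _ _ ((h2 x).1 hw) _ h12⟩
    · rw [h8.2] at h5
      cases h5

theorem forces_gch [Nonempty M] [Nonempty E] (hG : ∀ ν : Cardinal.{0}, ℵ₀ ≤ ν → 2 ^ ν = Order.succ ν)
    (hL : Stg L μ) (hM : #M = μ) (hLμ : #L = Order.succ μ) {ν : Cardinal.{0}} (hν : #L ≤ ν)
    (hE : #E = Order.succ ν) (p : Cond L M E) : p ∈ ForcesGCH (Cond L M E) := by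
  have h0 : ℵ₀ ≤ #L := by rw [hLμ]; exact hL.inf.trans (Order.le_succ μ)
  have hν0 : ℵ₀ ≤ ν := h0.trans hν
  have hE0 : ℵ₀ ≤ #E := by rw [hE]; exact hν0.trans (Order.le_succ ν)
  have hP : #(Cond L M E) ≤ #E := by
    have := mk_cond (M := M) (E := E) h0 (by rw [hM, hLμ]; exact Order.le_succ μ) hν
      (by rw [hG ν hν0, hE])
    rwa [hG ν hν0, ← hE] at this
  intro X Y hX
  have hX0 : ℵ₀ ≤ #X := aleph0_le_mk X
  rcases le_or_gt #Y #X with h | h
  · exact for_left (down_fex _) (sizeLe_of_le h p)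
  rcases le_or_gt #X μ with h1 | h1
  · rcases le_or_gt #Y μ with h2 | h2
    · exact for_left (down_fex _) (sizeLe_trans (sizeLe_of_le (X := M) (by rwa [hM]) p)
        (sizeLe_trans (collapse_M hL p) (sizeLe_of_le (by rwa [mk_nat]) p)))
    · exact for_right (down_fex _) (forces_ch hL hM (by rw [hLμ, hG μ hL.inf]) h1
        (by rw [hG μ hL.inf]; exact Order.succ_le_of_lt h2) p)
  rcases le_or_gt #Y #E with h2 | h2
  · exact for_left (down_fex _) (sizeLe_trans (sizeLe_of_le h2 p)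
      (sizeLe_trans (collapse_E hL p)
        (sizeLe_of_le (by rw [hLμ]; exact Order.succ_le_of_lt h1) p)))
  · refine for_right (down_fex _) (powerLe_triv ?_ p)
    rw [← power_def, mk_set, ← power_mul]
    have h3 : ℵ₀ ≤ max #E #X := hX0.trans (le_max_right _ _)
    refine (power_le_power_left two_ne_zero (mul_le_of_le h3 (hP.trans (le_max_left _ _))
      (le_max_right _ _))).trans ?_
    rw [hG _ h3]
    exact Order.succ_le_of_lt (max_lt h2 h)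

/-- a form of Chang's conjecture -/
def Ch (K S : Type) (μ : Cardinal.{0}) : Prop :=
  ∀ F : Finset S → ℕ → K, ∃ B : Set S, μ < #B ∧
    #{w | ∃ a : Finset S, ↑a ⊆ B ∧ ∃ m, F a m = w} ≤ μ

theorem rect1 [Nonempty M] [Nonempty E] (hL : Stg L μ) (hM : #M = μ) (hLμ : #L = Order.succ μ)
    {K S : Type} {lv : K → ℕ} {k : ℕ → Cardinal.{0}} (hK : Sing K lv k)
    (hSL : ∀ θ < #K, 2 ^ θ < #K) (hP : #(Cond L M E) < #K) (hS : #S = Order.succ #K)
    (hC : Ch K S μ) (c : K → S → Set (Cond L M E)) {q : Cond L M E} (hq : q ∈ fnot (Rect0 c)) :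
    ∃ r ≤ q, r ∈ fex fun A : K → Set (Cond L M E) => fex fun B : S → Set (Cond L M E) =>
      fand (AtLeast K A) (fand (AtLeast L B)
      (fall fun x => fall fun y => fimp (fand (meets (A x)) (meets (B y))) (meets (c x y)))) := by
  classical
  have hK0 : ℵ₀ ≤ #K := (hK.inf 0).trans (hK.lt 0).le
  obtain ⟨Y, hY, hbig⟩ := exists_big hK hP hS hq
  obtain ⟨e⟩ : #S ≤ #Y := by rw [hS]; exact Order.succ_le_of_lt hY
  let W : Type := Σ m : ℕ, (Cond L M E → Set {x // lv x ≤ m})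
  obtain ⟨j⟩ : #W ≤ #K := by
    rw [mk_sigma]
    refine (sum_le_mk_mul_iSup _).trans (mul_le_of_le hK0 (by rwa [mk_nat]) (ciSup_le' fun m => ?_))
    rw [← power_def, mk_set, ← power_mul]
    exact (hSL _ (mul_lt_of_lt hK0 ((hK.le m).trans_lt (hK.lt m)) hP)).le
  let H : Finset S → ℕ → W := fun a m => ⟨m, fun u => {x | x.1 ∈ Fc c u a}⟩
  let val : W → Cond L M E → Set K := fun h u => Subtype.val '' h.2 u
  have hval : ∀ a m u, val (H a m) u = Fc c u a ∩ {x | lv x ≤ m} := by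
    intro a m u
    ext x
    constructor
    · rintro ⟨y, hy, rfl⟩
      exact ⟨hy, y.2⟩
    · rintro ⟨h1, h2⟩
      exact ⟨⟨x, h2⟩, h1, rfl⟩
  obtain ⟨B, hB1, hB2⟩ := hC fun a m => j (H (a.image fun y => (e y : S)) m)
  obtain ⟨b0⟩ : #L ≤ #B := by rw [hLμ]; exact Order.succ_le_of_lt hB1
  let b : L → S := fun β => e (b0 β)
  have hb : Function.Injective b := fun β β' h =>
    b0.injective (Subtype.ext (e.injective (Subtype.ext h)))
  have hbig' : ∀ a : Finset L, Big c q (a.image b) := fun a => hbig _ (by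
    intro y hy
    obtain ⟨β, _, rfl⟩ := Finset.mem_image.1 (Finset.mem_coe.1 hy)
    exact (e _).2)
  let Hs : Set W := {h | ∃ (a : Finset L) (m : ℕ), H (a.image b) m = h}
  have hHs : #Hs ≤ μ := by
    refine le_trans ?_ hB2
    rw [← mk_image_eq (s := Hs) j.injective]
    refine mk_le_mk_of_subset ?_
    rintro _ ⟨_, ⟨a, m, rfl⟩, rfl⟩
    refine ⟨a.image fun β => (b0 β : S), ?_, m, ?_⟩
    · intro y hy
      obtain ⟨β, _, rfl⟩ := Finset.mem_image.1 (Finset.mem_coe.1 hy)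
      exact (b0 β).2
    · simp only [Finset.image_image]
      rfl
  have hι : #(Hs × ℕ) ≤ μ := by
    rw [mk_prod, lift_id, lift_id, mk_nat]
    exact mul_le_of_le hL.inf hHs hL.inf
  obtain ⟨s', hs', Wt, hW1, hW2⟩ := key_lemma hL hM.le hι
    (fun z => {u : Cond L M E | k z.2 ≤ #(val z.1.1 u)}) q.s
  obtain ⟨t, ht⟩ := cover (m := M) (⋃ z : Hs × ℕ, val z.1.1 '' Wt z) (by
    rw [hM]
    exact union_le hL.inf hι _ fun z => mk_image_le.trans (hW1 z).2.1)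
  have hqs : Supp q.r s'.α := q.supp.mono hs'.1
  let d : L → ℕ → M → Set (FP L M) := fun β n τ => {r | (∀ r', Supp r' s'.α → Le s'.σ r' r →
    ¬ Le s'.σ r' q.r) ∨ (k n ≤ #(t τ) ∧ ∃ h : Supp r s'.α, ∀ x ∈ t τ,
      (⟨s', r, h⟩ : Cond L M E) ∈ meets (c x (b β)))}
  obtain ⟨α', hα', -⟩ := hL.gt s'.α s'.α
  obtain ⟨s'', hs'', rfl, hd, -⟩ := extend s' d (Classical.arbitrary E)
    (by
      rintro β n τ r r' h1 h2 h3 (h4 | ⟨h4, h5, h6⟩)
      · exact Or.inl fun r'' h5 h6 => h4 r'' h5 (Le.trans s'.good h1 h6 h3)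
      · exact Or.inr ⟨h4, h2, fun x hx => down_meets _ _ (h6 x hx) _ ⟨le_rfl, h3⟩⟩)
    (by
      intro a n r h1
      by_cases h2 : ∀ r', Supp r' s'.α → Le s'.σ r' r → ¬ Le s'.σ r' q.r
      · exact ⟨r, Classical.arbitrary M, h1, Le.refl _ _, fun β _ => Or.inl h2⟩
      push Not at h2
      obtain ⟨r', h2, h3, h4⟩ := h2
      obtain ⟨u, hu, h5⟩ := hbig' a ⟨s', r', h2⟩ ⟨hs', h4⟩ _ (hK.lim _ (hK.lt n))
      have h6 : ∃ m, k n ≤ #(val (H (a.image b) m) u) := by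
        by_contra h6
        push Not at h6
        have h7 : Fc c u (a.image b) ⊆ ⋃ m, val (H (a.image b) m) u := fun x hx =>
          mem_iUnion.2 ⟨lv x, by rw [hval]; exact ⟨hx, le_refl (lv x)⟩⟩
        have h8 := (mk_le_mk_of_subset h7).trans (union_le (hK.inf n)
          (by rw [mk_nat]; exact hK.inf n) _ fun m => (h6 m).le)
        exact absurd (h5.trans h8) (not_le.2 (Order.lt_succ _))
      obtain ⟨m, hm⟩ := h6
      obtain ⟨w, hw, v, hv, hvw⟩ := hW2 (⟨H (a.image b) m, a, m, rfl⟩, n) u hu.1 hm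
      have hws := (hW1 _).2.2 w hw
      have hvs : s' ≤ v.s := hu.1.trans hv.1
      have hres : ∀ r0, Supp r0 s'.α → Le v.s.σ v.r r0 → Le s'.σ (res v.r s'.α) r0 := by
        intro r0 h7 h8
        have h9 := h8.res s'.α
        rw [h7.res_eq] at h9
        exact h9.congr h7 fun ξ hξ => (hvs.2 ξ hξ).1.symm
      obtain ⟨τ, hτ⟩ := ht (mem_iUnion.2 ⟨_, w, hw, rfl⟩)
      refine ⟨res v.r s'.α, τ, supp_res _ _,
        Le.trans s'.good h1 (hres r' h2 (hv.trans hu).2) h3, fun β hβ => Or.inr ⟨?_, supp_res _ _,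
          fun x hx => ?_⟩⟩
      · rw [hτ]
        exact (hW1 _).1 hw
      · rw [hτ] at hx
        have h7 : x ∈ val (H (a.image b) m) w := hx
        rw [hval] at h7
        exact down_meets _ _ (h7.1 _ (Finset.mem_image_of_mem b hβ)) _
          ⟨hws, hres w.r (w.supp.mono hws.1) hvw.2⟩) hα'
  let q' : Cond L M E := ⟨s'', q.r, hqs.mono hs''.1⟩
  have hq' : q' ≤ q := ⟨hs'.trans hs'', Le.refl _ _⟩
  have hσ : ∀ u ≤ q', u.s.σ s'.α = d := fun u hu => (hu.1.2 _ hα').1.trans hd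
  have hresq : ∀ u ≤ q', Le s'.σ (res u.r s'.α) q.r := by
    intro u hu
    have h9 := hu.2.res s'.α
    have h10 : res q'.r s'.α = q.r := hqs.res_eq
    rw [h10] at h9
    exact h9.congr hqs fun ξ hξ => ((hs''.trans hu.1).2 ξ hξ).1.symm
  have hdq : ∀ u ≤ q', ∀ β n τ, res u.r s'.α ∈ d β n τ → k n ≤ #(t τ) ∧ ∀ x ∈ t τ,
      u ∈ meets (c x (b β)) := by
    rintro u hu β n τ (h1 | ⟨h1, h2, h3⟩)
    · exact absurd (hresq u hu) (h1 _ (supp_res _ _) (Le.refl _ _))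
    · exact ⟨h1, fun x hx => down_meets _ _ (h3 x hx) _ ⟨hs''.trans hu.1, le_res_self _ _ _⟩⟩
  let N : L → Set (Cond L M E) := fun β => {u | u ≤ q' ∧ β ∈ (u.r.f s'.α).2 ∧
    ∀ n τ, (u.r.f s'.α).1[n]? = some τ → res u.r s'.α ∈ d β n τ}
  have hN : ∀ β, Down (N β) := by
    rintro β u ⟨h1, h2, h3⟩ v hv
    refine ⟨hv.trans h1, (hv.2 _).2.1 h2, fun n τ h4 => ?_⟩
    rw [← hσ v (hv.trans h1)]
    rcases lt_or_ge n (u.r.f s'.α).1.length with h5 | h5
    · obtain ⟨l, hl⟩ := (hv.2 s'.α).1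
      rw [← hl, List.getElem?_append_left h5] at h4
      refine (v.s.good _ (hα'.trans_le (hv.trans h1).1.1)).1 β n τ _ _ (supp_res _ _)
        (supp_res _ _) (hv.2.res _) ?_
      rw [hσ v (hv.trans h1)]
      exact h3 n τ h4
    · exact (hv.2 s'.α).2.2 n τ h4 h5 β h2
  have hex : ∃ r ≤ q', ∀ u ≤ r, ∀ γ, ∃ v ≤ u, ∃ β, γ ≤ β ∧ v ∈ meets (N β) := by
    by_contra hcon
    push Not at hcon
    obtain ⟨s3, hs3, W3, h1, h2⟩ := key_lemma hL hM.le (ι := Unit)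
      (by rw [mk_unit]; exact one_le_aleph0.trans hL.inf)
      (fun _ => {u : Cond L M E | ∃ γ, ∀ v ≤ u, ∀ β, γ ≤ β → v ∉ meets (N β)}) s''
    have h3 : ∀ w : W3 (), ∃ γ, ∀ v ≤ w.1, ∀ β, γ ≤ β → v ∉ meets (N β) := fun w => (h1 ()).1 w.2
    choose g hg using h3
    obtain ⟨γ, hγ⟩ := hL.bd (range g) (mk_range_le.trans (h1 ()).2.1)
    let q3 : Cond L M E := ⟨s3, q.r, hqs.mono (hs''.1.trans hs3.1)⟩
    have hq3 : q3 ≤ q' := ⟨hs3, Le.refl _ _⟩
    obtain ⟨v, hv, h4, h5, h6⟩ := side_step q3 (hα'.trans_le hs3.1) γ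
    have hvN : v ∈ N γ := by
      refine ⟨hv.trans hq3, h6, fun n τ h7 => ?_⟩
      rw [h5] at h7
      have h8 : q3.r.f s'.α = ([], ∅) := hqs _ le_rfl
      rw [h8] at h7
      simp at h7
    obtain ⟨u, hu, γ', h7⟩ := hcon v (hv.trans hq3)
    obtain ⟨w, hw, x, hx, hxw⟩ := h2 () u (hv.1.trans hu.1) ⟨γ', h7⟩
    exact hg ⟨w, hw⟩ x hxw γ (hγ _ ⟨_, rfl⟩).le (meets_of_mem (hN γ v hvN x (hx.trans hu)))
  obtain ⟨r, hr, hrN⟩ := hex
  let A : K → Set (Cond L M E) := fun x =>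
    {u | ∃ (n : ℕ) (τ : M), (u.r.f s'.α).1[n]? = some τ ∧ x ∈ t τ}
  have hA : ∀ x, Down (A x) := fun x u ⟨n, τ, h1, h2⟩ v hv =>
    ⟨n, τ, down_entry _ _ _ u h1 v hv, h2⟩
  have hone : ∀ u ≤ q', ∃ v ≤ u, ∃ τ, (v.r.f s'.α).1 = (u.r.f s'.α).1 ++ [τ] ∧
      k (u.r.f s'.α).1.length ≤ #(t τ) := by
    intro u hu
    have h1 : s'.α < u.s.α := hα'.trans_le hu.1.1
    obtain ⟨r', τ, h2, h3, h4⟩ := (u.s.good _ h1).2 (insert s'.α (u.r.f s'.α).2)
      (u.r.f s'.α).1.length _ (supp_res u.r s'.α)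
    obtain ⟨v, hv, _, h5, h6⟩ := stem_step u h1 h2 h3 τ
      fun β hβ => h4 β (Finset.mem_insert_of_mem hβ)
    refine ⟨v, hv, τ, by rw [h5], (hdq v (hv.trans hu) s'.α _ τ ?_).1⟩
    rw [h6, ← hσ u hu]
    exact h4 _ (Finset.mem_insert_self _ _)
  have hlong : ∀ n, ∀ u ≤ q', ∃ v ≤ u, n ≤ (v.r.f s'.α).1.length := by
    intro n
    induction n with
    | zero => exact fun u _ => ⟨u, le_rfl, Nat.zero_le _⟩
    | succ n ih =>
      intro u hu
      obtain ⟨v, hv, h1⟩ := ih u hu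
      obtain ⟨w, hw, τ, h2, _⟩ := hone v (hv.trans hu)
      exact ⟨w, hw.trans hv, by rw [h2]; simpa using h1⟩
  refine ⟨r, hr.trans hq', mem_fex_of_mem A (down_fex _) (mem_fex_of_mem (nImg b N)
    (down_fand (down_fex _) (down_fand (down_fex _)
      (down_fall fun _ => down_fall fun _ => down_fimp _ _))) ⟨?_, ?_, ?_⟩)⟩
  · refine atl hK hP A fun u hu θ hθ => ?_
    obtain ⟨n, hn⟩ := hK.cof θ hθ
    obtain ⟨v, hv, h1⟩ := hlong n u (hu.trans hr)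
    obtain ⟨w, hw, τ, h2, h3⟩ := hone v (hv.trans (hu.trans hr))
    refine ⟨w, hw.trans hv, hn.trans ((hK.mono h1).trans (h3.trans (mk_le_mk_of_subset ?_)))⟩
    intro x hx
    exact meets_of_mem ⟨(v.r.f s'.α).1.length, τ, by rw [h2]; simp, hx⟩
  · have := hL.wf
    exact atLeast_map hb ((cov hL hM.le).unb hL.inf hL.iio hL.bd N hrN)
  · intro x y
    refine mem_fimp.2 fun u hu h => ?_
    obtain ⟨v, hv, ⟨n, τ, h1, h2⟩, ⟨β, h3, h4⟩⟩ := two_meets (hA x) (down_nImg b N y) h.1 h.2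
    obtain ⟨w, hw, h5⟩ := exists_of_meets (hN β) h4
    refine ⟨w, hw.trans hv, ?_⟩
    rw [← h3]
    exact (hdq w h5.1 β n τ (h5.2.2 n τ (down_entry _ _ _ v h1 w hw))).2 x h2

theorem forces_R [Nonempty M] [Nonempty E] (hL : Stg L μ) (hM : #M = μ)
    (hLμ : #L = Order.succ μ) {K S : Type} {lv : K → ℕ} {k : ℕ → Cardinal.{0}} (hK : Sing K lv k)
    (hSL : ∀ θ < #K, 2 ^ θ < #K) (hP : #(Cond L M E) < #K) (hS : #S = Order.succ #K)
    (hC : Ch K S μ) (p : Cond L M E) : p ∈ RelationR (Cond L M E) K S L := by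
  intro c q _ h
  obtain ⟨r, hr, h1⟩ := rect1 hL hM hLμ hK hSL hP hS hC c h.1
  exact h.2 r hr h1

theorem relS_of_relR {P : Type} [Preorder P] {K S I : Type} (hKS : #K ≤ #S) {p : P}
    (h : p ∈ RelationR P K S I) : p ∈ RelationS P S K I := by
  obtain ⟨e⟩ := hKS
  intro c q hq hc
  obtain ⟨r, hr, h1⟩ := mem_for (down_fnot _ _ (h fun x y => c y (e x)) _ hq)
  rcases h1 with h1 | h1
  · obtain ⟨s, hs, A, h2⟩ := mem_fex.1 h1 r le_rfl
    obtain ⟨t, ht, B, h3, h4, h5⟩ := mem_fex.1 h2 s le_rfl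
    refine hc.1 t (ht.trans (hs.trans hr)) (mem_fex_of_mem B (down_fex _) (mem_fex_of_mem (nImg e A)
      (down_fand (down_fex _) (down_fand (down_fex _)
        (down_fall fun _ => down_fall fun _ => down_fimp _ _)))
      ⟨h4, atLeast_map e.injective h3, fun y z => mem_fimp.2 fun u hu h6 => ?_⟩))
    obtain ⟨v, hv, x, rfl, h7⟩ := exists_of_meets (down_nImg _ _ _) h6.2
    obtain ⟨w, hw, h8⟩ := mem_fimp.1 (h5 x y) v (hv.trans hu) ⟨h7, down_meets _ _ h6.1 _ hv⟩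
    exact ⟨w, hw.trans hv, h8⟩
  · obtain ⟨s, hs, A, h2⟩ := mem_fex.1 h1 r le_rfl
    obtain ⟨t, ht, B, h3, h4, h5⟩ := mem_fex.1 h2 s le_rfl
    refine hc.2 t (ht.trans (hs.trans hr)) (mem_fex_of_mem B (down_fex _) (mem_fex_of_mem (nImg e A)
      (down_fand (down_fex _) (down_fand (down_fex _)
        (down_fall fun _ => down_fall fun _ => down_fimp _ _)))
      ⟨h4, atLeast_map e.injective h3, fun y z => mem_fimp.2 fun u hu h6 => ?_⟩))
    obtain ⟨v, hv, x, rfl, h7⟩ := exists_of_meets (down_nImg _ _ _) h6.2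
    obtain ⟨w, hw, h8⟩ := mem_fimp.1 (h5 x y) v (hv.trans hu) ⟨h7, down_meets _ _ h6.1 _ hv⟩
    exact ⟨w, hw.trans hv, h8⟩

end Pool.Agent.H605Z.Pol
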